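import Pool.Agent.Helper446.Comp

/-!
More automation for computability.
-/

set_option autoImplicit false

namespace Pool.Agent.H646R2.NT

open Encodable Nat.Partrec Pool.Agent.Helper446.RE

section

variable {α β γ σ : Type*} [Primcodable α] [Primcodable β] [Primcodable γ] [Primcodable σ]

@[fun_prop] theorem q_mod {f g : α → ℕ} (hf : Computable f) (hg : Computable g) :
    Computable fun x => f x % g x := Primrec.nat_mod.to_comp.comp hf hg

@[fun_prop] theorem q_div {f g : α → ℕ} (hf : Computable f) (hg : Computable g) :
    Computable fun x => f x / g x := Primrec.nat_div.to_comp.comp hf hg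

@[fun_prop] theorem q_getD {f : α → Option β} {g : α → β} (hf : Computable f)
    (hg : Computable g) : Computable fun x => (f x).getD (g x) := Computable.option_getD hf hg

@[fun_prop] theorem q_eq [DecidableEq β] {f g : α → β} (hf : Computable f) (hg : Computable g) :
    Computable fun x => decide (f x = g x) := cdecide (cp_eq hf hg)

@[fun_prop] theorem q_lt {f g : α → ℕ} (hf : Computable f) (hg : Computable g) :
    Computable fun x => decide (f x < g x) := cdecide (cp_lt hf hg)

@[fun_prop] theorem q_le {f g : α → ℕ} (hf : Computable f) (hg : Computable g) :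
    Computable fun x => decide (f x ≤ g x) := cdecide (cp_le hf hg)

@[fun_prop] theorem q_mem [DecidableEq β] {f : α → β} {l : α → List β} (hf : Computable f)
    (hl : Computable l) : Computable fun x => decide (f x ∈ l x) := cdecide (cp_mem hf hl)

@[fun_prop] theorem q_xor {f g : α → Bool} (hf : Computable f) (hg : Computable g) :
    Computable fun x => xor (f x) (g x) := by
  have h : Computable fun x => bif f x then !(g x) else g x := by fun_prop
  refine h.of_eq fun x => ?_
  cases f x <;> simp

@[fun_prop] theorem q_range {f : α → ℕ} (hf : Computable f) :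
    Computable fun x => List.range (f x) := Primrec.list_range.to_comp.comp hf

@[fun_prop] theorem q_tail {f : α → List β} (hf : Computable f) :
    Computable fun x => (f x).tail := Primrec.list_tail.to_comp.comp hf

@[fun_prop] theorem q_head? {f : α → List β} (hf : Computable f) :
    Computable fun x => (f x).head? := Primrec.list_head?.to_comp.comp hf

@[fun_prop] theorem q_headD {f : α → List β} {g : α → β} (hf : Computable f)
    (hg : Computable g) : Computable fun x => (f x).headD (g x) := by
  have h : Computable fun x => ((f x).head?).getD (g x) := by fun_prop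
  refine h.of_eq fun x => ?_
  cases f x <;> rfl

theorem pow_comp2 : Computable (fun x : ℕ × ℕ => x.1 ^ x.2) := by
  have h := Computable.nat_rec (f := fun x : ℕ × ℕ => x.2) (g := fun _ : ℕ × ℕ => 1)
    (h := fun (a : ℕ × ℕ) (y : ℕ × ℕ) => y.2 * a.1) (by fun_prop) (by fun_prop) ?_
  · refine h.of_eq fun a => ?_
    rcases a with ⟨a, n⟩
    induction n with
    | zero => rfl
    | succ n ih =>
      simp only [pow_succ] at ih ⊢
      rw [← ih]
  · show Computable fun x : (ℕ × ℕ) × (ℕ × ℕ) => x.2.2 * x.1.1
    fun_prop

@[fun_prop] theorem q_pow {f g : α → ℕ} (hf : Computable f) (hg : Computable g) :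
    Computable (fun x => f x ^ g x) :=
  pow_comp2.comp (f := fun x : ℕ × ℕ => x.1 ^ x.2) (g := fun x => (f x, g x)) (by fun_prop)

/-- A function whose computability is proved on the product. -/
theorem q_flatMap {l : α → List β} {f : α → β → List γ} (hl : Computable l)
    (hf : Computable fun p : α × β => f p.1 p.2) : Computable fun a => (l a).flatMap (f a) := by
  have h := list_foldl (f := l) (g := fun _ : α => ([] : List γ))
    (h := fun (a : α) (s : List γ × β) => s.1 ++ f a s.2) hl (Computable.const [])
    (show Computable fun p : α × (List γ × β) => p.2.1 ++ f p.1 p.2.2 by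
      have h1 := hf.comp (g := fun p : α × (List γ × β) => (p.1, p.2.2)) (by fun_prop)
      exact cappend (by fun_prop) h1)
  refine h.of_eq fun a => ?_
  rw [List.flatMap_eq_foldl]

theorem q_map {l : α → List β} {f : α → β → γ} (hl : Computable l)
    (hf : Computable fun p : α × β => f p.1 p.2) : Computable fun a => (l a).map (f a) := by
  have h := q_flatMap (l := l) (f := fun a b => [f a b]) hl (ccons hf (cconst []))
  refine h.of_eq fun a => ?_
  induction l a with
  | nil => rfl
  | cons b t ih => simpa [List.flatMap_cons] using ih

theorem q_elim {f : α → Option β} {g : α → σ} {h : α → β → σ} (hf : Computable f)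
    (hg : Computable g) (hh : Computable fun p : α × β => h p.1 p.2) :
    Computable fun a => (f a).elim (g a) (h a) := by
  refine (Computable.option_casesOn hf hg (g := h) hh).of_eq fun a => ?_
  cases f a <;> rfl

theorem q_filter {l : α → List β} {f : α → β → Bool} (hl : Computable l)
    (hf : Computable fun p : α × β => f p.1 p.2) : Computable fun a => (l a).filter (f a) := by
  have h := q_flatMap (l := l) (f := fun a b => bif f a b then [b] else []) hl
    (ccond hf (ccons (by fun_prop) (cconst [])) (cconst []))
  refine h.of_eq fun a => ?_
  induction l a with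
  | nil => rfl
  | cons b t ih =>
    rw [List.flatMap_cons, ih, List.filter_cons]
    cases f a b <;> rfl

theorem q_any {l : α → List β} {f : α → β → Bool} (hl : Computable l)
    (hf : Computable fun p : α × β => f p.1 p.2) : Computable fun a => (l a).any (f a) := by
  have h := list_foldl (f := l) (g := fun _ : α => false)
    (h := fun (a : α) (s : Bool × β) => s.1 || f a s.2) hl (Computable.const false)
    (show Computable fun p : α × (Bool × β) => p.2.1 || f p.1 p.2.2 by
      have h1 := hf.comp (g := fun p : α × (Bool × β) => (p.1, p.2.2)) (by fun_prop)
      exact cor (by fun_prop) h1)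
  refine h.of_eq fun a => ?_
  have h3 : ∀ (l : List β) (s : Bool), l.foldl (fun s b => s || f a b) s = (s || l.any (f a)) := by
    intro l
    induction l with
    | nil => intro s; simp
    | cons b l ih => intro s; simp only [List.foldl_cons, ih, List.any_cons, Bool.or_assoc]
  simpa using h3 (l a) false

theorem q_all {l : α → List β} {f : α → β → Bool} (hl : Computable l)
    (hf : Computable fun p : α × β => f p.1 p.2) : Computable fun a => (l a).all (f a) := by
  have h := cnot (q_any (f := fun a b => !(f a b)) hl (cnot hf))
  refine h.of_eq fun a => ?_
  rw [List.all_eq_not_any_not]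

theorem q_zipWith {f : α → β → γ → σ} {l : α → List β} {m : α → List γ} (hl : Computable l)
    (hm : Computable m) (hf : Computable fun p : α × (β × γ) => f p.1 p.2.1 p.2.2) :
    Computable fun a => List.zipWith (f a) (l a) (m a) := by
  have h1 : Computable fun a => (List.range (l a).length).flatMap fun i =>
      ((l a)[i]?).elim [] fun b => ((m a)[i]?).elim [] fun c => [f a b c] := by
    refine q_flatMap (l := fun a => List.range (l a).length) (f := fun a i =>
      ((l a)[i]?).elim [] fun b => ((m a)[i]?).elim [] fun c => [f a b c]) (by fun_prop) ?_
    refine q_elim (f := fun p : α × ℕ => (l p.1)[p.2]?) (g := fun _ => ([] : List σ))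
      (h := fun p b => ((m p.1)[p.2]?).elim [] fun c => [f p.1 b c]) (by fun_prop)
      (by fun_prop) ?_
    refine q_elim (f := fun p : (α × ℕ) × β => (m p.1.1)[p.1.2]?)
      (g := fun _ => ([] : List σ)) (h := fun p c => [f p.1.1 p.2 c]) (by fun_prop)
      (by fun_prop) ?_
    have h2 := hf.comp (g := fun p : ((α × ℕ) × β) × γ => (p.1.1.1, (p.1.2, p.2))) (by fun_prop)
    exact ccons h2 (cconst [])
  refine h1.of_eq fun a => ?_
  have h3 : ∀ (l : List β) (m : List γ), ((List.range l.length).flatMap fun i =>
      (l[i]?).elim [] fun b => (m[i]?).elim [] fun c => [f a b c]) =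
      List.zipWith (f a) l m := by
    intro l
    induction l with
    | nil => intro m; simp
    | cons b l ih =>
      intro m
      cases m with
      | nil =>
        simp only [List.zipWith_nil_right]
        rw [List.flatMap_eq_nil_iff]
        intro i _
        cases (b :: l)[i]? <;> rfl
      | cons c m =>
        rw [List.length_cons, List.range_succ_eq_map, List.flatMap_cons, List.flatMap_map]
        simp only [List.getElem?_cons_zero, List.getElem?_cons_succ, Option.elim_some, ih,
          List.zipWith_cons_cons, List.cons_append, List.nil_append]
  exact h3 _ _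

theorem q_replicate {f : α → ℕ} {g : α → β} (hf : Computable f) (hg : Computable g) :
    Computable fun a => List.replicate (f a) (g a) := by
  have h := q_map (l := fun a => List.range (f a)) (f := fun a _ => g a) (by fun_prop)
    (by fun_prop)
  refine h.of_eq fun a => ?_
  rw [List.map_const', List.length_range]

theorem q_count [DecidableEq β] {f : α → β} {l : α → List β} (hf : Computable f)
    (hl : Computable l) : Computable fun a => (l a).count (f a) := by
  have h := clength (q_filter (l := l) (f := fun a b => decide (b = f a)) hl (by fun_prop))
  refine h.of_eq fun a => ?_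
  rw [List.count, List.countP_eq_length_filter]
  congr 1

theorem q_findIdx {l : α → List β} {f : α → β → Bool} (hl : Computable l)
    (hf : Computable fun p : α × β => f p.1 p.2) : Computable fun a => (l a).findIdx (f a) := by
  have h := csnd (list_foldl (f := l) (g := fun _ : α => (false, 0))
    (h := fun (a : α) (s : (Bool × ℕ) × β) => (s.1.1 || f a s.2,
      bif s.1.1 || f a s.2 then s.1.2 else s.1.2 + 1)) hl (Computable.const (false, 0))
    (show Computable fun p : α × ((Bool × ℕ) × β) => (p.2.1.1 || f p.1 p.2.2,
      bif p.2.1.1 || f p.1 p.2.2 then p.2.1.2 else p.2.1.2 + 1) by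
      have h1 := hf.comp (g := fun p : α × ((Bool × ℕ) × β) => (p.1, p.2.2)) (by fun_prop)
      have h2 : Computable fun p : α × ((Bool × ℕ) × β) => p.2.1.1 || f p.1 p.2.2 :=
        cor (by fun_prop) h1
      exact cpair h2 (ccond h2 (by fun_prop) (by fun_prop))))
  refine h.of_eq fun a => ?_
  have h4 : ∀ (l : List β) (n : ℕ), (l.foldl (fun (s : Bool × ℕ) b => (s.1 || f a b,
      bif s.1 || f a b then s.2 else s.2 + 1)) (true, n)) = (true, n) := by
    intro l
    induction l with
    | nil => intro n; rfl
    | cons b l ih => intro n; simp only [List.foldl_cons, Bool.true_or, cond_true, ih]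
  have h3 : ∀ (l : List β) (n : ℕ), (l.foldl (fun (s : Bool × ℕ) b => (s.1 || f a b,
      bif s.1 || f a b then s.2 else s.2 + 1)) (false, n)).2 = n + l.findIdx (f a) := by
    intro l
    induction l with
    | nil => intro n; simp
    | cons b l ih =>
      intro n
      rw [List.foldl_cons, List.findIdx_cons]
      cases hb : f a b
      · simp only [Bool.false_or, cond_false, ih]
        omega
      · simp only [Bool.false_or, cond_true, h4]
        omega
  simpa using h3 (l a) 0

end

end Pool.Agent.H646R2.NT
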