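import Pool.Agent.H646R2.NT.Defs
import Pool.Agent.H646R2.NT.Cp

/-!
The acceptance relation within a time bound is decidable, uniformly in the machine.
-/

set_option autoImplicit false

namespace Pool.Agent.H646R2.NT

open Encodable Nat.Partrec Pool.Agent.Helper446.RE

/-- The successor configurations. -/
def succs (M : Mach) (c : Cfg) : List Cfg :=
  (M.2.filter fun i => decide (i.1 = c.1) && decide (i.2.1 = c.2.map rd)).map
    fun i => (i.2.2.1, List.zipWith act i.2.2.2 c.2)

/-- All configurations reachable in exactly `n` steps. -/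
def cfgs {s : ℕ} (M : Mach) (w : W s) : ℕ → List Cfg
  | 0 => [init M w]
  | n + 1 => (cfgs M w n).flatMap (succs M)

/-- Boolean version of `Acc`. -/
def accB {s : ℕ} (M : Mach) (w : W s) (n : ℕ) : Bool :=
  (List.range (n + 1)).any fun m => (cfgs M w m).any fun c => decide (c.1 = 1)

theorem mem_succs {M : Mach} {c d : Cfg} : d ∈ succs M c ↔ Step M c d := by
  unfold succs Step
  simp only [List.mem_map, List.mem_filter, Bool.and_eq_true, decide_eq_true_eq]
  constructor
  · rintro ⟨i, ⟨h1, h2, h3⟩, rfl⟩
    exact ⟨i, h1, h2, h3, rfl⟩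
  · rintro ⟨i, h1, h2, h3, rfl⟩
    exact ⟨i, ⟨h1, h2, h3⟩, rfl⟩

theorem mem_cfgs {s : ℕ} {M : Mach} {w : W s} {n : ℕ} {d : Cfg} :
    d ∈ cfgs M w n ↔ Reach M n (init M w) d := by
  induction n generalizing d with
  | zero => simp only [cfgs, Reach, List.mem_singleton]; exact eq_comm
  | succ n ih => simp only [cfgs, Reach, List.mem_flatMap, mem_succs, ih]

theorem accB_iff {s : ℕ} {M : Mach} {w : W s} {n : ℕ} : accB M w n = true ↔ Acc M w n := by
  unfold accB Acc
  simp only [List.any_eq_true, List.mem_range, decide_eq_true_eq, mem_cfgs, Nat.lt_succ_iff]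

theorem acc_mono {s : ℕ} {M : Mach} {w : W s} {m n : ℕ} (h : m ≤ n) (hm : Acc M w m) :
    Acc M w n := by
  obtain ⟨k, hk, d, hd⟩ := hm
  exact ⟨k, hk.trans h, d, hd⟩

theorem accB_mono {s : ℕ} {M : Mach} {w : W s} {m n : ℕ} (h : m ≤ n) (hm : accB M w m = true) :
    accB M w n = true := accB_iff.2 (acc_mono h (accB_iff.1 hm))

section comp

variable {α : Type*} [Primcodable α]

theorem c_rd {f : α → Tape} (hf : Computable f) : Computable fun x => rd (f x) := by
  unfold rd; fun_prop

theorem c_act {f : α → ℕ × ℕ} {g : α → Tape} (hf : Computable f) (hg : Computable g) :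
    Computable fun x => act (f x) (g x) := by
  have h : Computable fun x => bif decide ((f x).2 = 0) then ((g x).1, (f x).1 :: (g x).2.tail)
      else bif decide ((f x).2 = 1) then
        ((g x).1.tail, (g x).1.headD 0 :: (f x).1 :: (g x).2.tail)
      else ((f x).1 :: (g x).1, (g x).2.tail) := by fun_prop
  refine h.of_eq fun x => ?_
  unfold act
  by_cases h0 : (f x).2 = 0
  · simp [h0]
  · by_cases h1 : (f x).2 = 1
    · simp [h1]
    · simp [h0, h1]

theorem c_succs {f : α → Mach} {g : α → Cfg} (hf : Computable f) (hg : Computable g) :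
    Computable fun x => succs (f x) (g x) := by
  unfold succs
  have h1 : Computable fun x => (g x).2.map rd :=
    q_map (l := fun x => (g x).2) (f := fun _ T => rd T) (by fun_prop) (c_rd (by fun_prop))
  have h2 : Computable fun x => (f x).2.filter fun i =>
      decide (i.1 = (g x).1) && decide (i.2.1 = (g x).2.map rd) := by
    refine q_filter (l := fun x => (f x).2) (f := fun x i =>
      decide (i.1 = (g x).1) && decide (i.2.1 = (g x).2.map rd)) (by fun_prop) ?_
    have h3 := h1.comp (g := fun p : α × Instr => p.1) (by fun_prop)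
    exact cand (by fun_prop) (q_eq (by fun_prop) h3)
  refine q_map (f := fun x (i : Instr) => (i.2.2.1, List.zipWith act i.2.2.2 (g x).2)) h2 ?_
  refine cpair (by fun_prop) ?_
  refine q_zipWith (f := fun _ a T => act a T) (l := fun p : α × Instr => p.2.2.2.2)
    (m := fun p => (g p.1).2) (by fun_prop) (by fun_prop) ?_
  exact c_act (by fun_prop) (by fun_prop)

theorem c_init {s : ℕ} {f : α → Mach} {g : α → W s} (hf : Computable f) (hg : Computable g) :
    Computable fun x => init (f x) (g x) := by
  unfold init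
  refine cpair (cconst 0) (ccons (cpair (cconst []) ?_) ?_)
  · refine q_map (l := g) (f := fun _ (a : Fin (s + 1)) => a.val + 1) hg ?_
    have h : Computable fun a : Fin (s + 1) => a.val := Primrec.fin_val.to_comp
    have h2 := h.comp (g := fun p : α × Fin (s + 1) => p.2) (by fun_prop)
    fun_prop
  · exact q_replicate (by fun_prop) (cconst _)

theorem c_cfgs {s : ℕ} {f : α → Mach} {g : α → W s} {k : α → ℕ} (hf : Computable f)
    (hg : Computable g) (hk : Computable k) : Computable fun x => cfgs (f x) (g x) (k x) := by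
  have h1 : Computable fun y : α × (ℕ × List Cfg) => y.2.2.flatMap (succs (f y.1)) := by
    refine q_flatMap (l := fun y : α × (ℕ × List Cfg) => y.2.2)
      (f := fun y c => succs (f y.1) c) (by fun_prop) ?_
    exact c_succs (by fun_prop) (by fun_prop)
  have h := Computable.nat_rec (f := k) (g := fun x : α => [init (f x) (g x)])
    (h := fun (x : α) (y : ℕ × List Cfg) => y.2.flatMap (succs (f x))) hk
    (ccons (c_init hf hg) (cconst [])) h1
  refine h.of_eq fun x => ?_
  generalize k x = n
  induction n with
  | zero => rfl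
  | succ n ih => simp only [cfgs]; rw [← ih]

theorem c_accB_aux {s : ℕ} : Computable fun x : (Mach × W s) × ℕ =>
    (cfgs x.1.1 x.1.2 x.2).any fun c => decide (c.1 = 1) := by
  have h1 : Computable fun x : (Mach × W s) × ℕ => cfgs x.1.1 x.1.2 x.2 :=
    c_cfgs (by fun_prop) (by fun_prop) (by fun_prop)
  have h0 : Computable fun c : Cfg => decide (c.1 = 1) := by fun_prop
  have h2 : Computable fun p : ((Mach × W s) × ℕ) × Cfg => decide (p.2.1 = 1) :=
    h0.comp Computable.snd
  exact q_any (l := fun x : (Mach × W s) × ℕ => cfgs x.1.1 x.1.2 x.2)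
    (f := fun _ (c : Cfg) => decide (c.1 = 1)) h1 h2

theorem c_accB_aux2 {s : ℕ} : Computable fun x : (Mach × W s) × ℕ => accB x.1.1 x.1.2 x.2 := by
  have h1 : Computable fun x : (Mach × W s) × ℕ => List.range (x.2 + 1) := by fun_prop
  have h2 : Computable fun p : ((Mach × W s) × ℕ) × ℕ =>
      (cfgs p.1.1.1 p.1.1.2 p.2).any fun c => decide (c.1 = 1) :=
    c_accB_aux.comp (g := fun p : ((Mach × W s) × ℕ) × ℕ => (p.1.1, p.2)) (by fun_prop)
  exact q_any (l := fun x : (Mach × W s) × ℕ => List.range (x.2 + 1))
    (f := fun x m => (cfgs x.1.1 x.1.2 m).any fun c => decide (c.1 = 1)) h1 h2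

@[fun_prop] theorem c_accB {s : ℕ} {f : α → Mach} {g : α → W s} {k : α → ℕ} (hf : Computable f)
    (hg : Computable g) (hk : Computable k) : Computable fun x => accB (f x) (g x) (k x) :=
  c_accB_aux2.comp ((hf.pair hg).pair hk)

end comp

/-! ### Words of a given length -/

/-- All words of length `n`. -/
def words (s : ℕ) : ℕ → List (W s)
  | 0 => [[]]
  | n + 1 => (words s n).flatMap fun w => (List.finRange (s + 1)).map fun a => a :: w

theorem mem_words {s n : ℕ} {w : W s} : w ∈ words s n ↔ w.length = n := by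
  induction n generalizing w with
  | zero => simp [words]
  | succ n ih =>
    simp only [words, List.mem_flatMap, ih, List.mem_map, List.mem_finRange, true_and]
    constructor
    · rintro ⟨u, hu, a, rfl⟩; simp [hu]
    · intro h
      cases w with
      | nil => simp at h
      | cons a u => exact ⟨u, by simpa using h, a, rfl⟩

section comp2

variable {α : Type*} [Primcodable α]

@[fun_prop] theorem c_words {s : ℕ} {k : α → ℕ} (hk : Computable k) :
    Computable fun x => words s (k x) := by
  have h1 : Computable fun y : α × (ℕ × List (W s)) => y.2.2.flatMap fun w =>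
      (List.finRange (s + 1)).map fun a => a :: w := by
    refine q_flatMap (l := fun y : α × (ℕ × List (W s)) => y.2.2)
      (f := fun y w => (List.finRange (s + 1)).map fun a => a :: w) (by fun_prop) ?_
    exact q_map (l := fun _ => List.finRange (s + 1))
      (f := fun (p : (α × (ℕ × List (W s))) × W s) a => a :: p.2) (cconst _) (by fun_prop)
  have h := Computable.nat_rec (f := k) (g := fun _ : α => ([[]] : List (W s)))
    (h := fun (_ : α) (y : ℕ × List (W s)) => y.2.flatMap fun w =>
      (List.finRange (s + 1)).map fun a => a :: w) hk (cconst _) h1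
  refine h.of_eq fun x => ?_
  generalize k x = n
  induction n with
  | zero => rfl
  | succ n ih => simp only [words]; rw [← ih]

end comp2

/-! ### Standard polynomials -/

/-- `v ↦ (v + c) ^ c`. -/
def PP (c v : ℕ) : ℕ := (v + c) ^ c

theorem PP_mono {c u v : ℕ} (h : u ≤ v) : PP c u ≤ PP c v := Nat.pow_le_pow_left (by omega) _

/-- The polynomial `(X + c) ^ c`. -/
noncomputable def PQ (c : ℕ) : Polynomial ℕ := (Polynomial.X + Polynomial.C c) ^ c

theorem PQ_eval (c v : ℕ) : (PQ c).eval v = PP c v := by simp [PQ, PP]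

theorem PP_le {c d v : ℕ} (h : c ≤ d) (hd : 1 ≤ d) : PP c v ≤ PP d v := by
  unfold PP
  calc (v + c) ^ c ≤ (v + d) ^ c := Nat.pow_le_pow_left (by omega) _
    _ ≤ (v + d) ^ d := Nat.pow_le_pow_right (by omega) h

theorem exists_PP (p : Polynomial ℕ) : ∃ c, ∀ v, p.eval v ≤ PP c v := by
  induction p using Polynomial.induction_on' with
  | add p q hp hq =>
    obtain ⟨a, ha⟩ := hp
    obtain ⟨b, hb⟩ := hq
    refine ⟨a + b + 2, fun v => ?_⟩
    rw [Polynomial.eval_add]
    have h1 : PP a v ≤ (v + (a + b + 2)) ^ (a + b + 1) := by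
      unfold PP
      calc (v + a) ^ a ≤ (v + (a + b + 2)) ^ a := Nat.pow_le_pow_left (by omega) _
        _ ≤ _ := Nat.pow_le_pow_right (by omega) (by omega)
    have h2 : PP b v ≤ (v + (a + b + 2)) ^ (a + b + 1) := by
      unfold PP
      calc (v + b) ^ b ≤ (v + (a + b + 2)) ^ b := Nat.pow_le_pow_left (by omega) _
        _ ≤ _ := Nat.pow_le_pow_right (by omega) (by omega)
    have h3 : PP (a + b + 2) v = (v + (a + b + 2)) ^ (a + b + 1) * (v + (a + b + 2)) := by
      unfold PP; rw [← pow_succ]
    have h4 := ha v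
    have h5 := hb v
    rw [h3]
    have h6 : (v + (a + b + 2)) ^ (a + b + 1) * 2 ≤
        (v + (a + b + 2)) ^ (a + b + 1) * (v + (a + b + 2)) :=
      Nat.mul_le_mul_left _ (by omega)
    omega
  | monomial n a =>
    refine ⟨n + a + 1, fun v => ?_⟩
    rw [Polynomial.eval_monomial]
    unfold PP
    calc a * v ^ n ≤ (v + (n + a + 1)) * (v + (n + a + 1)) ^ n :=
          Nat.mul_le_mul (by omega) (Nat.pow_le_pow_left (by omega) _)
      _ = (v + (n + a + 1)) ^ (n + 1) := by rw [pow_succ, mul_comm]
      _ ≤ _ := Nat.pow_le_pow_right (by omega) (by omega)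

@[fun_prop] theorem c_PP {α : Type*} [Primcodable α] {f g : α → ℕ} (hf : Computable f)
    (hg : Computable g) : Computable fun x => PP (f x) (g x) := by unfold PP; fun_prop

end Pool.Agent.H646R2.NT
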