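import Pool.Agent.H646R2.NT.Acc
import Pool.Agent.Helper702.SF.P_exists_machine

/-!
Stubs of the tasks of `h646_tasks` (problem MP_fa4772_lc). This file is never imported by a result.
-/

set_option autoImplicit false

namespace Pool.Agent.H646R2.NT

open Encodable Nat.Partrec Pool.Agent.Helper446.RE Turing

/-! ### Task S1 (encoding) -/

/-- `a` ones followed by a zero, for each entry `a` of the list. -/
def bits (l : List ℕ) : List Bool := l.flatMap fun a => List.replicate a true ++ [false]

/-- The number with the binary digits `1 :: bits l`, most significant digit first. -/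
def NN (l : List ℕ) : ℕ := (bits l).foldl (fun n b => 2 * n + (bif b then 1 else 0)) 1

theorem NN_inj {l m : List ℕ} (h : NN l = NN m) : l = m := by sorry

theorem NN_comp : Computable NN := by sorry

theorem trNat_NN (l : List ℕ) : (PartrecToTM2.trNat (NN l)).reverse =
    PartrecToTM2.Γ'.bit1 :: (bits l).map
      (fun b => bif b then PartrecToTM2.Γ'.bit1 else PartrecToTM2.Γ'.bit0) := by sorry

/-! ### Task S2 (simulation of a one-tape machine after a preparatory phase) -/

theorem exists_sim (s : ℕ) {Γ Λ : Type} [Inhabited Γ] [Finite Γ] [Inhabited Λ] [Finite Λ]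
    (M : TM0.Machine Γ Λ) (mk o z : Γ) (h1 : mk ≠ o) (h2 : mk ≠ z) (h3 : mk ≠ default) :
    ∃ F : ℕ → Mach, Computable F ∧ (∀ p, WF (F p) ∧ Det (F p)) ∧ ∀ p (w : W s),
      (∃ n, Acc (F p) w n) ↔ (StateTransition.eval (TM0.step M)
        (TM0.init (mk :: o :: (bits (p :: w.map fun a => a.val)).map
          fun b => bif b then o else z))).Dom := by sorry

/-! ### Task S3 (every r.e. condition on words has a machine, uniformly); uses S1 and S2 -/

theorem exists_compile (s : ℕ) : ∃ F : Code → Mach, Computable F ∧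
    (∀ c, WF (F c) ∧ Det (F c)) ∧
      ∀ c (w : W s), (∃ n, Acc (F c) w n) ↔ (c.eval (encode w)).Dom := by sorry

/-! ### Task HH (the hierarchy of bounds); uses only the statement of `exists_compile` -/

theorem exists_hh {s : ℕ} (D : ℕ → ℕ → ℕ → W s → Bool)
    (hD : Computable fun x : (ℕ × ℕ × ℕ) × W s => D x.1.1 x.1.2.1 x.1.2.2 x.2)
    (h : ℕ → ℕ) (hc : Computable h) :
    ∃ (hh : ℕ → ℕ → ℕ) (mc : ℕ → ℕ → Mach), (Computable fun x : ℕ × ℕ => hh x.1 x.2) ∧
      (∀ n, h n ≤ hh 0 n) ∧ (∀ j n, hh j n ≤ hh (j + 1) n) ∧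
      (∀ n, hh (2 * n + 2) n < hh 0 (n + 1)) ∧ (∀ j r, WF (mc j r) ∧ Det (mc j r)) ∧
      (∀ j r (w : W s), (∃ n, Acc (mc j r) w n) ↔ D (hh j w.length) j r w = true) ∧
      (∀ j r (w : W s), r ≤ w.length → D (hh j w.length) j r w = true →
        Acc (mc j r) w (hh (j + 1) w.length)) := by sorry

/-! ### Task UP (the index set is `Π⁰₃`) -/

theorem closedIx_pi3 (s : ℕ) : IsPi3 (closedIx s) := by sorry

end Pool.Agent.H646R2.NT
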