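import Pool.Agent.H646R2.NT.Acc

/-!
The construction of the time bounds.
-/

set_option autoImplicit false

namespace Pool.Agent.H646R2.NT

open Encodable Nat.Partrec Pool.Agent.Helper446.RE

/-- The enumeration of all pairs of a machine and an exponent. -/
def pr (e : ℕ) : Mach × ℕ := Denumerable.ofNat (Mach × ℕ) e

theorem pr_surj (x : Mach × ℕ) : ∃ e, pr e = x := ⟨encode x, Denumerable.ofNat_encode x⟩

/-- Finite patches. -/
abbrev Patch (s : ℕ) := Bool × ℕ × List (W s)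

/-- Decoding of patches. -/
def pdec (s r : ℕ) : Patch s := ((decode r : Option (Patch s))).getD (false, 0, [])

theorem pdec_encode {s : ℕ} (x : Patch s) : pdec s (encode x) = x := by simp [pdec]

/-- The tests. -/
def DD (s v j r : ℕ) (w : W s) : Bool :=
  bif decide (j % 2 = 0) then
    bif decide (w.length < (pdec s r).2.1) then decide (w ∈ (pdec s r).2.2)
    else xor (pdec s r).1 (accB (pr (j / 2)).1 w (PP (pr (j / 2)).2 v))
  else decide (w = List.replicate w.length 0) &&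
    accB (pr w.length.unpair.1).1 w (PP (pr w.length.unpair.1).2 v)

section defs

variable (s : ℕ) (hh : ℕ → ℕ → ℕ) (P : ℕ → ℕ → ℕ → ℕ → Bool)

/-- Pair `e` can be killed at `n`. -/
def cnd (e n : ℕ) : Bool := (words s n).any fun w =>
  accB (pr e).1 w (PP (pr e).2 (hh (2 * n + 2) n)) &&
    !(accB (pr e).1 w (PP (pr e).2 (hh (2 * e) n)))

/-- Row `a` is allowed to act for the `k`-th time at `n`. -/
def alw (x a k n : ℕ) : Bool :=
  (List.range (k + 1)).all fun b => (List.range (n + 1)).any fun c => !(P x a b c)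

/-- Requirement `i` requires attention. -/
def att (x n : ℕ) (l : List ℕ) (i : ℕ) : Bool :=
  bif decide (i % 2 = 0) then decide (l.count i = 0) && cnd s hh (i / 2) n
  else decide (n.unpair.1 = l.count i) && alw P x (i / 2) (l.count i) n

/-- The least requirement that requires attention. -/
def idxF (x n : ℕ) (l : List ℕ) : ℕ := (List.range (2 * n + 2)).findIdx (att s hh P x n l)

/-- The history of the requirements which acted. -/
def hist (x : ℕ) : ℕ → List ℕ
  | 0 => []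
  | n + 1 => bif decide (idxF s hh P x n (hist x n) < 2 * n + 2) then
      idxF s hh P x n (hist x n) :: hist x n else hist x n

/-- The requirement which acts at `n`; the value `2 * n + 2` if there is none. -/
def ix (x n : ℕ) : ℕ := idxF s hh P x n (hist s hh P x n)

/-- The time bound. -/
def TT (x n : ℕ) : ℕ :=
  bif decide (ix s hh P x n % 2 = 1) &&
    DD s (hh (ix s hh P x n) n) (ix s hh P x n) 0 (List.replicate n 0) then hh (2 * n + 2) n
  else hh (ix s hh P x n) n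

end defs

/-! ### Computability -/

section comp

variable {α : Type*} [Primcodable α]

@[fun_prop] theorem c_pr {f : α → ℕ} (hf : Computable f) : Computable fun x => pr (f x) :=
  (Computable.ofNat (Mach × ℕ)).comp hf

@[fun_prop] theorem c_pdec {s : ℕ} {f : α → ℕ} (hf : Computable f) :
    Computable fun x => pdec s (f x) := by
  unfold pdec
  exact q_getD (cdecode hf) (cconst _)

theorem e_mod (c : ℕ) : Computable fun j : ℕ => decide (j % 2 = c) := by fun_prop

theorem e_lt {β : Type*} [Primcodable β] (f g : β → ℕ) (hf : Computable f)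
    (hg : Computable g) {inst : ∀ x, Decidable (f x < g x)} :
    Computable fun x => @decide (f x < g x) (inst x) := by
  refine (q_lt hf hg).of_eq fun x => ?_
  rw [decide_eq_decide]

theorem e_eq {β γ : Type*} [Primcodable β] [Primcodable γ] [DecidableEq γ] (f g : β → γ)
    (hf : Computable f) (hg : Computable g) {inst : ∀ x, Decidable (f x = g x)} :
    Computable fun x => @decide (f x = g x) (inst x) := by
  refine (q_eq hf hg).of_eq fun x => ?_
  rw [decide_eq_decide]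

theorem e_mem {β γ : Type*} [Primcodable β] [Primcodable γ] [DecidableEq γ] (f : β → γ)
    (g : β → List γ) (hf : Computable f) (hg : Computable g)
    {inst : ∀ x, Decidable (f x ∈ g x)} :
    Computable fun x => @decide (f x ∈ g x) (inst x) := by
  refine (q_mem hf hg).of_eq fun x => ?_
  rw [decide_eq_decide]

theorem e_count {f : α → ℕ} {l : α → List ℕ} (hf : Computable f)
    (hl : Computable l) : Computable fun a => (l a).count (f a) := by
  have h := clength (q_filter (l := l) (f := fun a b => decide (b = f a)) hl (by fun_prop))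
  refine h.of_eq fun a => ?_
  induction l a with
  | nil => rfl
  | cons b t ih =>
    rw [List.count_cons, List.filter_cons, ← ih]
    by_cases h : b = f a
    · simp [h]
    · simp [h]

theorem d_pdec (s : ℕ) : Computable fun x : (ℕ × ℕ × ℕ) × W s => pdec s x.1.2.2 := by
  have g2 : Computable fun x : (ℕ × ℕ × ℕ) × W s => x.1.2.2 := by fun_prop
  exact c_pdec g2

theorem d_pr1 (s : ℕ) : Computable fun x : (ℕ × ℕ × ℕ) × W s => pr (x.1.2.1 / 2) := by
  fun_prop

theorem d_pr2 (s : ℕ) : Computable fun x : (ℕ × ℕ × ℕ) × W s => pr x.2.length.unpair.1 := by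
  fun_prop

theorem d_a1 (s : ℕ) : Computable fun x : (ℕ × ℕ × ℕ) × W s =>
    accB (pr (x.1.2.1 / 2)).1 x.2 (PP (pr (x.1.2.1 / 2)).2 x.1.1) :=
  c_accB (cfst (d_pr1 s)) (by fun_prop) (c_PP (csnd (d_pr1 s)) (by fun_prop))

theorem d_a2 (s : ℕ) : Computable fun x : (ℕ × ℕ × ℕ) × W s =>
    accB (pr x.2.length.unpair.1).1 x.2 (PP (pr x.2.length.unpair.1).2 x.1.1) :=
  c_accB (cfst (d_pr2 s)) (by fun_prop) (c_PP (csnd (d_pr2 s)) (by fun_prop))

theorem d_1 (s : ℕ) : Computable fun x : (ℕ × ℕ × ℕ) × W s => decide (x.1.2.1 % 2 = 0) := by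
  have g1 : Computable fun x : (ℕ × ℕ × ℕ) × W s => x.1.2.1 := by fun_prop
  exact (e_mod 0).comp g1

theorem d_2 (s : ℕ) : Computable fun x : (ℕ × ℕ × ℕ) × W s => (pdec s x.1.2.2).2.1 :=
  cfst (csnd (d_pdec s))

theorem d_3 (s : ℕ) : Computable fun x : (ℕ × ℕ × ℕ) × W s => (pdec s x.1.2.2).2.2 :=
  csnd (csnd (d_pdec s))

theorem d_4 (s : ℕ) : Computable fun x : (ℕ × ℕ × ℕ) × W s => (pdec s x.1.2.2).1 :=
  cfst (d_pdec s)

theorem d_5 (s : ℕ) : Computable fun x : (ℕ × ℕ × ℕ) × W s => x.2 := by fun_prop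

theorem d_6 (s : ℕ) : Computable fun x : (ℕ × ℕ × ℕ) × W s => x.2.length := by fun_prop

theorem d_7 (s : ℕ) : Computable fun x : (ℕ × ℕ × ℕ) × W s =>
    (List.replicate x.2.length 0 : W s) := q_replicate (d_6 s) (cconst _)

theorem d_8 (s : ℕ) : Computable fun x : (ℕ × ℕ × ℕ) × W s =>
    decide (x.2.length < (pdec s x.1.2.2).2.1) := e_lt _ _ (d_6 s) (d_2 s)

theorem d_9 (s : ℕ) : Computable fun x : (ℕ × ℕ × ℕ) × W s =>
    decide (x.2 ∈ (pdec s x.1.2.2).2.2) := e_mem _ _ (d_5 s) (d_3 s)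

theorem d_10 (s : ℕ) : Computable fun x : (ℕ × ℕ × ℕ) × W s =>
    decide (x.2 = List.replicate x.2.length 0) := e_eq _ _ (d_5 s) (d_7 s)

theorem DD_comp (s : ℕ) :
    Computable fun x : (ℕ × ℕ × ℕ) × W s => DD s x.1.1 x.1.2.1 x.1.2.2 x.2 := by
  unfold DD
  exact Computable.cond (d_1 s) (Computable.cond (d_8 s) (d_9 s) (q_xor (d_4 s) (d_a1 s)))
    (cand (d_10 s) (d_a2 s))

variable {s : ℕ} {hh : ℕ → ℕ → ℕ} {P : ℕ → ℕ → ℕ → ℕ → Bool}

theorem cnd_comp (h1 : Computable fun x : ℕ × ℕ => hh x.1 x.2) :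
    Computable fun x : ℕ × ℕ => cnd s hh x.1 x.2 := by
  unfold cnd
  have h2 : Computable fun x : (ℕ × ℕ) × W s => hh (2 * x.1.2 + 2) x.1.2 :=
    h1.comp (g := fun x : (ℕ × ℕ) × W s => (2 * x.1.2 + 2, x.1.2)) (by fun_prop)
  have h3 : Computable fun x : (ℕ × ℕ) × W s => hh (2 * x.1.1) x.1.2 :=
    h1.comp (g := fun x : (ℕ × ℕ) × W s => (2 * x.1.1, x.1.2)) (by fun_prop)
  have h4 : Computable fun x : (ℕ × ℕ) × W s => pr x.1.1 := by fun_prop
  refine q_any (l := fun x : ℕ × ℕ => words s x.2) (f := fun x w =>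
    accB (pr x.1).1 w (PP (pr x.1).2 (hh (2 * x.2 + 2) x.2)) &&
    !(accB (pr x.1).1 w (PP (pr x.1).2 (hh (2 * x.1) x.2)))) (by fun_prop) ?_
  exact cand (c_accB (cfst h4) (by fun_prop) (c_PP (csnd h4) h2))
    (cnot (c_accB (cfst h4) (by fun_prop) (c_PP (csnd h4) h3)))

theorem alw_comp (hP : Computable fun y : ℕ × ℕ × ℕ × ℕ => P y.1 y.2.1 y.2.2.1 y.2.2.2) :
    Computable fun x : ℕ × ℕ × ℕ × ℕ => alw P x.1 x.2.1 x.2.2.1 x.2.2.2 := by
  unfold alw
  refine q_all (l := fun x : ℕ × ℕ × ℕ × ℕ => List.range (x.2.2.1 + 1)) (f := fun x b =>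
    (List.range (x.2.2.2 + 1)).any fun c => !(P x.1 x.2.1 b c)) (by fun_prop) ?_
  refine q_any (l := fun x : (ℕ × ℕ × ℕ × ℕ) × ℕ => List.range (x.1.2.2.2 + 1))
    (f := fun x c => !(P x.1.1 x.1.2.1 x.2 c)) (by fun_prop) ?_
  exact cnot (hP.comp (g := fun x : ((ℕ × ℕ × ℕ × ℕ) × ℕ) × ℕ =>
    (x.1.1.1, x.1.1.2.1, x.1.2, x.2)) (by fun_prop))

abbrev AT := ((ℕ × ℕ) × List ℕ) × ℕ

theorem a_1 : Computable fun x : AT => x.1.1.1 := by fun_prop
theorem a_2 : Computable fun x : AT => x.1.1.2 := by fun_prop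
theorem a_3 : Computable fun x : AT => x.1.2 := by fun_prop
theorem a_4 : Computable fun x : AT => x.2 := by fun_prop
theorem a_5 : Computable fun x : AT => x.2 / 2 := by fun_prop
theorem a_6 : Computable fun x : AT => x.1.2.count x.2 := e_count a_4 a_3
theorem a_7 : Computable fun x : AT => decide (x.2 % 2 = 0) :=
  (e_mod 0).comp (g := fun x : AT => x.2) a_4
theorem a_8 : Computable fun x : AT => decide (x.1.2.count x.2 = 0) :=
  e_eq (fun x : AT => x.1.2.count x.2) (fun _ => 0) a_6 (cconst 0)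
theorem a_9 : Computable fun x : AT => decide (x.1.1.2.unpair.1 = x.1.2.count x.2) :=
  e_eq (fun x : AT => x.1.1.2.unpair.1) (fun x => x.1.2.count x.2) (cfst (cunpair a_2)) a_6

theorem a_10 (h1 : Computable fun x : ℕ × ℕ => hh x.1 x.2) :
    Computable fun x : AT => cnd s hh (x.2 / 2) x.1.1.2 :=
  (cnd_comp h1).comp (g := fun x : AT => (x.2 / 2, x.1.1.2)) (cpair a_5 a_2)

theorem a_11 (hP : Computable fun y : ℕ × ℕ × ℕ × ℕ => P y.1 y.2.1 y.2.2.1 y.2.2.2) :
    Computable fun x : AT => alw P x.1.1.1 (x.2 / 2) (x.1.2.count x.2) x.1.1.2 :=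
  (alw_comp hP).comp (g := fun x : AT => (x.1.1.1, x.2 / 2, x.1.2.count x.2, x.1.1.2))
    (cpair a_1 (cpair a_5 (cpair a_6 a_2)))

theorem att_comp (h1 : Computable fun x : ℕ × ℕ => hh x.1 x.2)
    (hP : Computable fun y : ℕ × ℕ × ℕ × ℕ => P y.1 y.2.1 y.2.2.1 y.2.2.2) :
    Computable fun x : AT => att s hh P x.1.1.1 x.1.1.2 x.1.2 x.2 := by
  unfold att
  exact Computable.cond a_7 (cand a_8 (a_10 h1)) (cand a_9 (a_11 hP))

theorem idxF_comp (h1 : Computable fun x : ℕ × ℕ => hh x.1 x.2)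
    (hP : Computable fun y : ℕ × ℕ × ℕ × ℕ => P y.1 y.2.1 y.2.2.1 y.2.2.2) :
    Computable fun x : (ℕ × ℕ) × List ℕ => idxF s hh P x.1.1 x.1.2 x.2 := by
  unfold idxF
  exact q_findIdx (l := fun x : (ℕ × ℕ) × List ℕ => List.range (2 * x.1.2 + 2))
    (f := fun x i => att s hh P x.1.1 x.1.2 x.2 i) (by fun_prop) (att_comp h1 hP)

theorem hist_comp (h1 : Computable fun x : ℕ × ℕ => hh x.1 x.2)
    (hP : Computable fun y : ℕ × ℕ × ℕ × ℕ => P y.1 y.2.1 y.2.2.1 y.2.2.2) :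
    Computable fun x : ℕ × ℕ => hist s hh P x.1 x.2 := by
  have h2 : Computable fun y : (ℕ × ℕ) × (ℕ × List ℕ) =>
      idxF s hh P y.1.1 y.2.1 y.2.2 :=
    (idxF_comp h1 hP).comp (g := fun y : (ℕ × ℕ) × (ℕ × List ℕ) => ((y.1.1, y.2.1), y.2.2))
      (by fun_prop)
  have h := Computable.nat_rec (f := fun x : ℕ × ℕ => x.2) (g := fun _ : ℕ × ℕ => ([] : List ℕ))
    (h := fun (x : ℕ × ℕ) (y : ℕ × List ℕ) =>
      bif decide (idxF s hh P x.1 y.1 y.2 < 2 * y.1 + 2) then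
      idxF s hh P x.1 y.1 y.2 :: y.2 else y.2) (by fun_prop) (cconst _)
    (Computable.cond (e_lt _ _ h2 (by fun_prop)) (ccons h2 (by fun_prop)) (by fun_prop))
  refine h.of_eq fun x => ?_
  obtain ⟨x, n⟩ := x
  show _ = hist s hh P x n
  induction n with
  | zero => rfl
  | succ n ih => simp only [hist]; rw [← ih]

theorem t_1 (h1 : Computable fun x : ℕ × ℕ => hh x.1 x.2)
    (hP : Computable fun y : ℕ × ℕ × ℕ × ℕ => P y.1 y.2.1 y.2.2.1 y.2.2.2) :
    Computable fun x : ℕ × ℕ => ix s hh P x.1 x.2 :=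
  (idxF_comp h1 hP).comp (g := fun x : ℕ × ℕ => (x, hist s hh P x.1 x.2))
    (cpair Computable.id (hist_comp h1 hP))

theorem t_2 (h1 : Computable fun x : ℕ × ℕ => hh x.1 x.2)
    (hP : Computable fun y : ℕ × ℕ × ℕ × ℕ => P y.1 y.2.1 y.2.2.1 y.2.2.2) :
    Computable fun x : ℕ × ℕ => hh (ix s hh P x.1 x.2) x.2 :=
  h1.comp (g := fun x : ℕ × ℕ => (ix s hh P x.1 x.2, x.2)) (cpair (t_1 h1 hP) Computable.snd)

theorem t_3 (h1 : Computable fun x : ℕ × ℕ => hh x.1 x.2) :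
    Computable fun x : ℕ × ℕ => hh (2 * x.2 + 2) x.2 :=
  h1.comp (g := fun x : ℕ × ℕ => (2 * x.2 + 2, x.2)) (by fun_prop)

theorem t_4 : Computable fun x : ℕ × ℕ => (List.replicate x.2 0 : W s) :=
  q_replicate Computable.snd (cconst _)

theorem t_5 (h1 : Computable fun x : ℕ × ℕ => hh x.1 x.2)
    (hP : Computable fun y : ℕ × ℕ × ℕ × ℕ => P y.1 y.2.1 y.2.2.1 y.2.2.2) :
    Computable fun x : ℕ × ℕ =>
      DD s (hh (ix s hh P x.1 x.2) x.2) (ix s hh P x.1 x.2) 0 (List.replicate x.2 0) :=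
  (DD_comp s).comp (g := fun x : ℕ × ℕ => ((hh (ix s hh P x.1 x.2) x.2,
    (ix s hh P x.1 x.2), 0), (List.replicate x.2 0 : W s)))
    (cpair (cpair (t_2 h1 hP) (cpair (t_1 h1 hP) (cconst 0))) t_4)

theorem t_6 (h1 : Computable fun x : ℕ × ℕ => hh x.1 x.2)
    (hP : Computable fun y : ℕ × ℕ × ℕ × ℕ => P y.1 y.2.1 y.2.2.1 y.2.2.2) :
    Computable fun x : ℕ × ℕ => decide (ix s hh P x.1 x.2 % 2 = 1) :=
  (e_mod 1).comp (g := fun x : ℕ × ℕ => ix s hh P x.1 x.2) (t_1 h1 hP)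

theorem TT_comp (h1 : Computable fun x : ℕ × ℕ => hh x.1 x.2)
    (hP : Computable fun y : ℕ × ℕ × ℕ × ℕ => P y.1 y.2.1 y.2.2.1 y.2.2.2) :
    Computable fun x : ℕ × ℕ => TT s hh P x.1 x.2 := by
  unfold TT
  exact Computable.cond (cand (t_6 h1 hP) (t_5 h1 hP)) (t_3 h1) (t_2 h1 hP)

end comp

end Pool.Agent.H646R2.NT
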