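import Mathlib

/-!
# Multitape Turing machines and the classes `NTIME(Pol t)`, `DTIME(Pol t)`

Problem MP_fa4772_lc. All definitions used in the statement of the result.
-/

set_option autoImplicit false

namespace Pool.Agent.H646R2.NT

/-! ### Multitape Turing machines -/

/-- A tape, two-sided infinite, with the head on some cell. `T.1` lists the symbols to the left of
the head (nearest first), `T.2` lists the scanned symbol and the symbols to the right of the head.
All cells which are not listed are blank. Symbols are natural numbers, `0` is the blank. -/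
abbrev Tape := List ℕ × List ℕ

/-- The scanned symbol. -/
def rd (T : Tape) : ℕ := T.2.headD 0

/-- Write the symbol `a.1` into the scanned cell, then move the head: stay if `a.2 = 0`, one cell
to the left if `a.2 = 1`, and one cell to the right otherwise. -/
def act (a : ℕ × ℕ) (T : Tape) : Tape :=
  if a.2 = 0 then (T.1, a.1 :: T.2.tail)
  else if a.2 = 1 then (T.1.tail, T.1.headD 0 :: a.1 :: T.2.tail)
  else (a.1 :: T.1, T.2.tail)

/-- An instruction `(q, x, q', y)`: in state `q`, when the heads scan the symbols listed in `x`
(one for each tape), go to state `q'` and perform on each tape the action listed in `y`. States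
are natural numbers. -/
abbrev Instr := ℕ × List ℕ × ℕ × List (ℕ × ℕ)

/-- A machine: the number of its tapes, and the finite list of its instructions. It is
nondeterministic in general. The start state is `0`, the accepting state is `1`. -/
abbrev Mach := ℕ × List Instr

/-- A configuration: the state and the tapes. -/
abbrev Cfg := ℕ × List Tape

/-- `M` is well formed: it has at least one tape, and all instructions are about exactly as many
tapes as it has. -/
def WF (M : Mach) : Prop :=
  1 ≤ M.1 ∧ ∀ i ∈ M.2, i.2.1.length = M.1 ∧ i.2.2.2.length = M.1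

/-- `M` is deterministic: at most one instruction for given state and scanned symbols. -/
def Det (M : Mach) : Prop :=
  ∀ i ∈ M.2, ∀ j ∈ M.2, i.1 = j.1 → i.2.1 = j.2.1 → i = j

/-- One step of `M` from the configuration `c` to the configuration `d`. -/
def Step (M : Mach) (c d : Cfg) : Prop :=
  ∃ i ∈ M.2, i.1 = c.1 ∧ i.2.1 = c.2.map rd ∧ d = (i.2.2.1, List.zipWith act i.2.2.2 c.2)

/-- Reachability in exactly `n` steps. -/
def Reach (M : Mach) : ℕ → Cfg → Cfg → Prop
  | 0, c, d => c = d
  | n + 1, c, d => ∃ c', Reach M n c c' ∧ Step M c' d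

/-- Words over the alphabet with `s + 1` letters. -/
abbrev W (s : ℕ) := List (Fin (s + 1))

/-- The initial configuration on the input `w`: the start state, the input on the first tape with
the head on its first letter, where the letter `a` is written as the symbol `a + 1`; the other
tapes are blank. -/
def init {s : ℕ} (M : Mach) (w : W s) : Cfg :=
  (0, ([], w.map fun a => a.val + 1) :: List.replicate (M.1 - 1) ([], []))

/-- `M` has an accepting computation on `w` of length at most `n`. -/
def Acc {s : ℕ} (M : Mach) (w : W s) (n : ℕ) : Prop :=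
  ∃ m ≤ n, ∃ d, Reach M m (init M w) d ∧ d.1 = 1

/-! ### The classes -/

/-- `M` accepts exactly `L`, and every `w ∈ L` has an accepting computation of `M` of length at
most `p (t (|w|))`. -/
def Recog {s : ℕ} (t : ℕ → ℕ) (M : Mach) (p : Polynomial ℕ) (L : Set (W s)) : Prop :=
  (∀ w, w ∈ L ↔ ∃ n, Acc M w n) ∧ ∀ w ∈ L, Acc M w (p.eval (t w.length))

/-- `NTIME(Pol t)` over the alphabet with `s + 1` letters. -/
def NTIME (s : ℕ) (t : ℕ → ℕ) : Set (Set (W s)) :=
  {L | ∃ (M : Mach) (p : Polynomial ℕ), WF M ∧ Recog t M p L}

/-- `DTIME(Pol t)` over the alphabet with `s + 1` letters. -/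
def DTIME (s : ℕ) (t : ℕ → ℕ) : Set (Set (W s)) :=
  {L | ∃ (M : Mach) (p : Polynomial ℕ), WF M ∧ Det M ∧ Recog t M p L}

/-- `coNTIME(Pol t)` over the alphabet with `s + 1` letters. -/
def coNTIME (s : ℕ) (t : ℕ → ℕ) : Set (Set (W s)) := {L | Lᶜ ∈ NTIME s t}

/-! ### The arithmetical class `Π⁰₃` and the index set -/

/-- `A` is a `Π⁰₃` set. -/
def IsPi3 (A : Set ℕ) : Prop :=
  ∃ P : ℕ → ℕ → ℕ → ℕ → Bool,
    (Computable fun y : ℕ × ℕ × ℕ × ℕ => P y.1 y.2.1 y.2.2.1 y.2.2.2) ∧
      ∀ x, x ∈ A ↔ ∀ a, ∃ b, ∀ c, P x a b c = true

/-- The program with number `e` computes the (total) function `t`. -/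
def Computes (e : ℕ) (t : ℕ → ℕ) : Prop :=
  ∀ n, t n ∈ (Denumerable.ofNat Nat.Partrec.Code e).eval n

/-- The set of all programs of total functions `t` such that `NTIME(Pol t)` is closed under
complementation. -/
def closedIx (s : ℕ) : Set ℕ := {e | ∃ t, Computes e t ∧ coNTIME s t = NTIME s t}

end Pool.Agent.H646R2.NT
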