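import Pool.Agent.H646R2.NT.Acc

/-!
The hierarchy of bounds (task HH).
-/

set_option autoImplicit false

namespace Pool.Agent.H646R2.NT

open Encodable Nat.Partrec Pool.Agent.Helper446.RE

namespace HH

theorem re_mem_eval {α : Type*} [Primcodable α] {c : α → Code} {k v : α → ℕ}
    (hc : Computable c) (hk : Computable k) (hv : Computable v) :
    REPred fun a => v a ∈ (c a).eval (k a) := by
  have h1 : Computable fun x : (ℕ × Code) × ℕ => (Code.evaln x.1.1 x.1.2 x.2) :=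
    Code.primrec_evaln.to_comp
  have h2 : REPred fun a => ∃ n : ℕ, Code.evaln n (c a) (k a) = some (v a) := by
    refine exN (p := fun a n => Code.evaln n (c a) (k a) = some (v a)) ?_
    refine eq ?_ ?_
    · exact h1.comp (g := fun x : α × ℕ => ((x.2, c x.1), k x.1)) (by fun_prop)
    · fun_prop
  refine h2.of_eq fun a => ?_
  rw [Code.evaln_complete]
  rfl

/-- every r.e. predicate has a code -/
theorem exists_re_code {α : Type*} [Primcodable α] {p : α → Prop} (hp : REPred p) :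
    ∃ c : Code, ∀ a, (c.eval (encode a)).Dom ↔ p a := by
  obtain ⟨c, hc⟩ := Nat.Partrec.Code.exists_code.1 hp
  refine ⟨c, fun a => ?_⟩
  rw [hc]
  simp only [encodek, Part.coe_some, Part.bind_some, Part.map_Dom]
  constructor
  · rintro ⟨h, -⟩; exact h
  · intro h; exact ⟨h, trivial⟩

/-- the relation defining the hierarchy -/
def R {s : ℕ} (D : ℕ → ℕ → ℕ → W s → Bool) (h : ℕ → ℕ) (F : Code → Mach)
    (cd : Code → ℕ → ℕ → Code) (c : Code) (j n v : ℕ) : Prop :=
  (j = 0 ∧ n = 0 ∧ v = h 0) ∨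
  (j = 0 ∧ 1 ≤ n ∧ ∃ u, u ∈ c.eval (Nat.pair (2 * (n - 1) + 2) (n - 1)) ∧ v = max (h n) (u + 1)) ∨
  (1 ≤ j ∧ ∃ u, u ∈ c.eval (Nat.pair (j - 1) n) ∧
    ∃ m, (∀ r < n + 1, ∀ w ∈ words s n, (!(D u (j - 1) r w) || accB (F (cd c (j - 1) r)) w m) = true) ∧
      v = max u m)

theorem re_R {s : ℕ} {D : ℕ → ℕ → ℕ → W s → Bool}
    (hD : Computable fun x : (ℕ × ℕ × ℕ) × W s => D x.1.1 x.1.2.1 x.1.2.2 x.2)
    {h : ℕ → ℕ} (hc : Computable h) {F : Code → Mach} (hF : Computable F)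
    {cd : Code → ℕ → ℕ → Code}
    (hcd : Computable fun x : Code × ℕ × ℕ => cd x.1 x.2.1 x.2.2) :
    REPred fun x : (Code × ℕ × ℕ) × ℕ => R D h F cd x.1.1 x.1.2.1 x.1.2.2 x.2 := by
  unfold R
  refine or ?_ (or ?_ ?_)
  · refine and (eq (by fun_prop) (cconst _)) (and (eq (by fun_prop) (cconst _)) ?_)
    exact eq (by fun_prop) (by fun_prop)
  · refine and (eq (by fun_prop) (cconst _)) (and (le (cconst _) (by fun_prop)) ?_)
    refine exN (p := fun (x : (Code × ℕ × ℕ) × ℕ) u => u ∈ x.1.1.eval (Nat.pair (2 * (x.1.2.2 - 1) + 2)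
      (x.1.2.2 - 1)) ∧ x.2 = max (h x.1.2.2) (u + 1)) ?_
    refine and (re_mem_eval (by fun_prop) (by fun_prop) (by fun_prop)) (eq (by fun_prop) ?_)
    have hh : Computable fun x : ((Code × ℕ × ℕ) × ℕ) × ℕ => h x.1.1.2.2 :=
      hc.comp (g := fun x : ((Code × ℕ × ℕ) × ℕ) × ℕ => x.1.1.2.2) (by fun_prop)
    exact cmax hh (by fun_prop)
  · refine and (le (cconst _) (by fun_prop)) ?_
    refine exN (p := fun (x : (Code × ℕ × ℕ) × ℕ) u => u ∈ x.1.1.eval (Nat.pair (x.1.2.1 - 1) x.1.2.2) ∧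
      ∃ m, (∀ r < x.1.2.2 + 1, ∀ w ∈ words s x.1.2.2,
        (!(D u (x.1.2.1 - 1) r w) || accB (F (cd x.1.1 (x.1.2.1 - 1) r)) w m) = true) ∧
        x.2 = max u m) ?_
    refine and (re_mem_eval (by fun_prop) (by fun_prop) (by fun_prop)) ?_
    refine exN (p := fun (x : ((Code × ℕ × ℕ) × ℕ) × ℕ) m =>
      (∀ r < x.1.1.2.2 + 1, ∀ w ∈ words s x.1.1.2.2,
        (!(D x.2 (x.1.1.2.1 - 1) r w) || accB (F (cd x.1.1.1 (x.1.1.2.1 - 1) r)) w m) = true) ∧
        x.1.2 = max x.2 m) ?_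
    refine and ?_ (eq (by fun_prop) (by fun_prop))
    refine all_lt (p := fun (x : (((Code × ℕ × ℕ) × ℕ) × ℕ) × ℕ) r => ∀ w ∈ words s x.1.1.1.2.2,
        (!(D x.1.2 (x.1.1.1.2.1 - 1) r w) ||
          accB (F (cd x.1.1.1.1 (x.1.1.1.2.1 - 1) r)) w x.2) = true) ?_ (by fun_prop)
    refine all_mem (p := fun (x : ((((Code × ℕ × ℕ) × ℕ) × ℕ) × ℕ) × ℕ) w =>
        (!(D x.1.1.2 (x.1.1.1.1.2.1 - 1) x.2 w) ||
          accB (F (cd x.1.1.1.1.1 (x.1.1.1.1.2.1 - 1) x.2)) w x.1.2) = true)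
        (l := fun x => words s x.1.1.1.1.2.2) ?_ (by fun_prop)
    apply of_bool
    refine cor (cnot ?_) (c_accB ?_ ?_ ?_)
    · exact hD.comp (g := fun x : (((((Code × ℕ × ℕ) × ℕ) × ℕ) × ℕ) × ℕ) × W s =>
        ((x.1.1.1.2, x.1.1.1.1.1.2.1 - 1, x.1.2), x.2)) (by fun_prop)
    · exact (hF.comp hcd).comp (g := fun x : (((((Code × ℕ × ℕ) × ℕ) × ℕ) × ℕ) × ℕ) × W s =>
        (x.1.1.1.1.1.1, x.1.1.1.1.1.2.1 - 1, x.1.2)) (by fun_prop)
    · fun_prop
    · fun_prop

end HH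

theorem exists_hh_of {s : ℕ} (hFex : ∃ F : Code → Mach, Computable F ∧
    (∀ c, WF (F c) ∧ Det (F c)) ∧
      ∀ c (w : W s), (∃ n, Acc (F c) w n) ↔ (c.eval (encode w)).Dom)
    (D : ℕ → ℕ → ℕ → W s → Bool)
    (hD : Computable fun x : (ℕ × ℕ × ℕ) × W s => D x.1.1 x.1.2.1 x.1.2.2 x.2)
    (h : ℕ → ℕ) (hc : Computable h) :
    ∃ (hh : ℕ → ℕ → ℕ) (mc : ℕ → ℕ → Mach), (Computable fun x : ℕ × ℕ => hh x.1 x.2) ∧
      (∀ n, h n ≤ hh 0 n) ∧ (∀ j n, hh j n ≤ hh (j + 1) n) ∧
      (∀ n, hh (2 * n + 2) n < hh 0 (n + 1)) ∧ (∀ j r, WF (mc j r) ∧ Det (mc j r)) ∧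
      (∀ j r (w : W s), (∃ n, Acc (mc j r) w n) ↔ D (hh j w.length) j r w = true) ∧
      (∀ j r (w : W s), r ≤ w.length → D (hh j w.length) j r w = true →
        Acc (mc j r) w (hh (j + 1) w.length)) := by
  obtain ⟨F, hF, hFw, hFd⟩ := hFex
  -- the codes of the languages
  have hre : REPred fun x : (Code × ℕ × ℕ) × W s =>
      ∃ v, v ∈ x.1.1.eval (Nat.pair x.1.2.1 x.2.length) ∧ D v x.1.2.1 x.1.2.2 x.2 = true := by
    refine exN (p := fun (x : (Code × ℕ × ℕ) × W s) v =>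
      v ∈ x.1.1.eval (Nat.pair x.1.2.1 x.2.length) ∧ D v x.1.2.1 x.1.2.2 x.2 = true) ?_
    refine and (HH.re_mem_eval (by fun_prop) (by fun_prop) (by fun_prop)) ?_
    apply of_bool
    exact hD.comp (g := fun x : ((Code × ℕ × ℕ) × W s) × ℕ =>
      ((x.2, x.1.1.2.1, x.1.1.2.2), x.1.2)) (by fun_prop)
  obtain ⟨C0, hC0⟩ := HH.exists_re_code hre
  obtain ⟨S, hS, hSe⟩ := Code.smn
  let cd : Code → ℕ → ℕ → Code := fun c j r => S C0 (encode (c, j, r))
  have hcd : Computable fun x : Code × ℕ × ℕ => cd x.1 x.2.1 x.2.2 := by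
    have h1 : Computable fun x : Code × ℕ × ℕ => S C0 (encode x) :=
      hS.comp (cconst C0) (by fun_prop)
    exact h1
  have hcdd : ∀ c j r (w : W s), ((cd c j r).eval (encode w)).Dom ↔
      ∃ v, v ∈ c.eval (Nat.pair j w.length) ∧ D v j r w = true := by
    intro c j r w
    have h1 := hC0 ((c, j, r), w)
    rw [← h1]
    show ((S C0 (encode (c, j, r))).eval (encode w)).Dom ↔ _
    rw [hSe]
    rfl
  -- the fixed point
  have hR : REPred fun x : (Code × ℕ × ℕ) × ℕ => HH.R D h F cd x.1.1 x.1.2.1 x.1.2.2 x.2 :=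
    HH.re_R hD hc hF hcd
  obtain ⟨f, hf, hfd, hfm⟩ := uniformize (r := fun (x : Code × ℕ × ℕ) (v : ℕ) =>
    HH.R D h F cd x.1 x.2.1 x.2.2 v) hR
  have hf2 : Partrec₂ fun (c : Code) (k : ℕ) => f (c, k.unpair.1, k.unpair.2) :=
    hf.comp (g := fun x : Code × ℕ => (x.1, x.2.unpair.1, x.2.unpair.2)) (by fun_prop)
  obtain ⟨g, hg⟩ := Code.fixed_point₂ hf2
  have hgd : ∀ j n, (g.eval (Nat.pair j n)).Dom ↔ ∃ v, HH.R D h F cd g j n v := by
    intro j n
    rw [hg]
    have := hfd (g, j, n)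
    simpa using this
  have hgm : ∀ j n v, v ∈ g.eval (Nat.pair j n) → HH.R D h F cd g j n v := by
    intro j n v hv
    rw [hg] at hv
    have := hfm (g, j, n) v (by simpa using hv)
    simpa using this
  -- totality
  have htot : ∀ n j, (g.eval (Nat.pair j n)).Dom := by
    intro n
    induction n using Nat.strong_induction_on with
    | _ n ihn =>
      intro j
      induction j with
      | zero =>
        rw [hgd]
        rcases Nat.eq_zero_or_pos n with h0 | h0
        · subst h0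
          exact ⟨h 0, Or.inl ⟨rfl, rfl, rfl⟩⟩
        · obtain ⟨u, hu⟩ := Part.dom_iff_mem.1 (ihn (n - 1) (by omega) (2 * (n - 1) + 2))
          exact ⟨_, Or.inr (Or.inl ⟨rfl, h0, u, hu, rfl⟩)⟩
      | succ j ihj =>
        rw [hgd]
        obtain ⟨u, hu⟩ := Part.dom_iff_mem.1 ihj
        have hex : ∀ r (w : W s), ∃ m, w.length = n → D u j r w = true →
            accB (F (cd g j r)) w m = true := by
          intro r w
          by_cases hw : w.length = n ∧ D u j r w = true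
          · have h1 : ((cd g j r).eval (encode w)).Dom := by
              rw [hcdd]
              exact ⟨u, by rw [hw.1]; exact hu, hw.2⟩
            obtain ⟨m, hm⟩ := (hFd _ w).2 h1
            exact ⟨m, fun _ _ => accB_iff.2 hm⟩
          · exact ⟨0, fun h1 h2 => absurd ⟨h1, h2⟩ hw⟩
        choose mm hmm using hex
        refine ⟨_, Or.inr (Or.inr ⟨by omega, u, by simpa using hu,
          (Finset.range (n + 1)).sup fun r => ((words s n).map (mm r)).sum, ?_, rfl⟩)⟩
        intro r hr w hw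
        simp only [Nat.add_sub_cancel]
        rw [mem_words] at hw
        by_cases hDD : D u j r w = true
        · have h1 := hmm r w hw hDD
          have h2 : mm r w ≤ (Finset.range (n + 1)).sup fun r => ((words s n).map (mm r)).sum := by
            refine le_trans ?_ (Finset.le_sup (f := fun r => ((words s n).map (mm r)).sum)
              (Finset.mem_range.2 hr))
            exact List.single_le_sum (by simp) _ (List.mem_map_of_mem (mem_words.2 hw))
          rw [accB_mono h2 h1]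
          simp
        · simp only [Bool.not_eq_true] at hDD
          rw [hDD]
          simp
  let hh : ℕ → ℕ → ℕ := fun j n => (g.eval (Nat.pair j n)).get (htot n j)
  have hhm : ∀ j n, hh j n ∈ g.eval (Nat.pair j n) := fun j n => Part.get_mem _
  have hhu : ∀ j n v, v ∈ g.eval (Nat.pair j n) → v = hh j n := fun j n v hv =>
    Part.mem_unique hv (hhm j n)
  have hhR : ∀ j n, HH.R D h F cd g j n (hh j n) := fun j n => hgm j n _ (hhm j n)
  have hstep : ∀ j n, ∃ m, (∀ r < n + 1, ∀ w ∈ words s n,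
      (!(D (hh j n) j r w) || accB (F (cd g j r)) w m) = true) ∧ hh (j + 1) n = max (hh j n) m := by
    intro j n
    rcases hhR (j + 1) n with h1 | h1 | h1
    · exact absurd h1.1 (by omega)
    · exact absurd h1.1 (by omega)
    · obtain ⟨-, u, hu, m, hm, hv⟩ := h1
      simp only [Nat.add_sub_cancel] at hu hm
      have := hhu _ _ _ hu
      subst this
      exact ⟨m, hm, hv⟩
  refine ⟨hh, fun j r => F (cd g j r), ?_, ?_, ?_, ?_, ?_, ?_, ?_⟩
  · have h1 : Partrec fun x : ℕ × ℕ => g.eval (Nat.pair x.1 x.2) := by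
      have h2 : Partrec fun n : ℕ => g.eval n :=
        Partrec.nat_iff.2 (Code.exists_code.2 ⟨g, rfl⟩)
      exact h2.comp (g := fun x : ℕ × ℕ => Nat.pair x.1 x.2) (by fun_prop)
    refine h1.of_eq_tot fun x => ?_
    exact hhm x.1 x.2
  · intro n
    rcases hhR 0 n with h1 | h1 | h1
    · rw [h1.2.2, h1.2.1]
    · obtain ⟨-, -, u, -, hv⟩ := h1
      rw [hv]
      exact le_max_left _ _
    · exact absurd h1.1 (by omega)
  · intro j n
    obtain ⟨m, -, hm⟩ := hstep j n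
    rw [hm]
    exact le_max_left _ _
  · intro n
    rcases hhR 0 (n + 1) with h1 | h1 | h1
    · exact absurd h1.2.1 (by omega)
    · obtain ⟨-, -, u, hu, hv⟩ := h1
      simp only [Nat.add_sub_cancel] at hu
      rw [hv, ← hhu _ _ _ hu]
      exact lt_of_lt_of_le (Nat.lt_succ_self u) (le_max_right _ _)
    · exact absurd h1.1 (by omega)
  · intro j r
    exact hFw _
  · intro j r w
    rw [hFd, hcdd]
    constructor
    · rintro ⟨v, hv, h1⟩
      rw [hhu _ _ _ hv] at h1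
      exact h1
    · intro h1
      exact ⟨_, hhm j w.length, h1⟩
  · intro j r w hr h1
    obtain ⟨m, hm, hv⟩ := hstep j w.length
    have h2 := hm r (by omega) w (mem_words.2 rfl)
    rw [h1] at h2
    simp only [Bool.not_true, Bool.false_or] at h2
    rw [hv]
    exact acc_mono (le_max_right _ _) (accB_iff.1 h2)

end Pool.Agent.H646R2.NT
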