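import Pool.Agent.H646R2.NT.Acc

/-!
Binary encoding of lists of natural numbers (task S1).
-/

set_option autoImplicit false

namespace Pool.Agent.H646R2.NT

open Encodable Nat.Partrec Pool.Agent.Helper446.RE Turing

/-- `a` ones followed by a zero, for each entry `a` of the list. -/
def bits (l : List ℕ) : List Bool := l.flatMap fun a => List.replicate a true ++ [false]

/-- The number with the binary digits `1 :: bits l`, most significant digit first. -/
def NN (l : List ℕ) : ℕ := (bits l).foldl (fun n b => 2 * n + (bif b then 1 else 0)) 1

/-- The positive number with binary digits `1 :: l`. -/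
def s1_pos (l : List Bool) : PosNum :=
  l.foldl (fun n b => bif b then PosNum.bit1 n else PosNum.bit0 n) PosNum.one

theorem s1_pos_cast (l : List Bool) :
    ((s1_pos l : PosNum) : ℕ) = l.foldl (fun n b => 2 * n + (bif b then 1 else 0)) 1 := by
  induction l using List.reverseRecOn with
  | nil => rfl
  | append_singleton l b ih =>
    unfold s1_pos at ih ⊢
    rw [List.foldl_append, List.foldl_append, List.foldl_cons, List.foldl_nil, List.foldl_cons,
      List.foldl_nil, ← ih]
    cases b
    · rw [cond_false, cond_false, PosNum.cast_bit0]
      omega
    · rw [cond_true, cond_true, PosNum.cast_bit1]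
      omega

theorem s1_trPosNum (l : List Bool) : (PartrecToTM2.trPosNum (s1_pos l)).reverse =
    PartrecToTM2.Γ'.bit1 :: l.map
      (fun b => bif b then PartrecToTM2.Γ'.bit1 else PartrecToTM2.Γ'.bit0) := by
  induction l using List.reverseRecOn with
  | nil => rfl
  | append_singleton l b ih =>
    have h : s1_pos (l ++ [b]) = bif b then PosNum.bit1 (s1_pos l) else PosNum.bit0 (s1_pos l) := by
      unfold s1_pos
      rw [List.foldl_append, List.foldl_cons, List.foldl_nil]
    rw [h, List.map_append, ← List.cons_append, ← ih]
    cases b
    · rw [cond_false, PartrecToTM2.trPosNum, List.reverse_cons]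
      rfl
    · rw [cond_true, PartrecToTM2.trPosNum, List.reverse_cons]
      rfl

theorem trNat_NN (l : List ℕ) : (PartrecToTM2.trNat (NN l)).reverse =
    PartrecToTM2.Γ'.bit1 :: (bits l).map
      (fun b => bif b then PartrecToTM2.Γ'.bit1 else PartrecToTM2.Γ'.bit0) := by
  have h : ((NN l : ℕ) : Num) = Num.pos (s1_pos (bits l)) := by
    unfold NN
    rw [← s1_pos_cast]
    exact PosNum.of_to_nat _
  rw [PartrecToTM2.trNat, h, PartrecToTM2.trNum]
  exact s1_trPosNum _

theorem s1_rep (a b : ℕ) (x y : List Bool)
    (h : List.replicate a true ++ false :: x = List.replicate b true ++ false :: y) :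
    a = b ∧ x = y := by
  induction a generalizing b with
  | zero =>
    cases b with
    | zero => simpa using h
    | succ b =>
      rw [List.replicate_succ, List.replicate_zero, List.nil_append, List.cons_append] at h
      simp at h
  | succ a ih =>
    cases b with
    | zero =>
      rw [List.replicate_succ, List.replicate_zero, List.nil_append, List.cons_append] at h
      simp at h
    | succ b =>
      rw [List.replicate_succ, List.replicate_succ, List.cons_append, List.cons_append] at h
      have h2 := (List.cons.inj h).2
      obtain ⟨h3, h4⟩ := ih b h2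
      exact ⟨by rw [h3], h4⟩

theorem s1_bits_cons (a : ℕ) (l : List ℕ) :
    bits (a :: l) = List.replicate a true ++ false :: bits l := by
  unfold bits
  rw [List.flatMap_cons, List.append_assoc]
  rfl

theorem s1_bits_inj {l m : List ℕ} (h : bits l = bits m) : l = m := by
  induction l generalizing m with
  | nil =>
    cases m with
    | nil => rfl
    | cons b m =>
      rw [s1_bits_cons] at h
      have h2 := congrArg List.length h
      simp [bits] at h2
  | cons a l ih =>
    cases m with
    | nil =>
      rw [s1_bits_cons] at h
      have h2 := congrArg List.length h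
      simp [bits] at h2
    | cons b m =>
      rw [s1_bits_cons, s1_bits_cons] at h
      obtain ⟨h1, h2⟩ := s1_rep _ _ _ _ h
      rw [h1, ih h2]

theorem NN_inj {l m : List ℕ} (h : NN l = NN m) : l = m := by
  have h1 := trNat_NN l
  rw [h, trNat_NN m] at h1
  have h2 := (List.cons.inj h1).2
  apply s1_bits_inj
  have h3 : Function.Injective
      (fun b : Bool => bif b then PartrecToTM2.Γ'.bit1 else PartrecToTM2.Γ'.bit0) := by
    intro x y hxy
    cases x <;> cases y <;> simp_all
  exact (List.map_injective_iff.mpr h3 h2).symm

theorem s1_bits_comp : Computable bits := by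
  unfold bits
  refine q_flatMap (l := fun l : List ℕ => l) (f := fun _ a => List.replicate a true ++ [false])
    Computable.id ?_
  exact cappend (q_replicate (f := fun p : List ℕ × ℕ => p.2) (g := fun _ => true)
    (by fun_prop) (by fun_prop)) (by fun_prop)

theorem NN_comp : Computable NN := by
  unfold NN
  refine list_foldl (f := bits) (g := fun _ : List ℕ => 1)
    (h := fun (_ : List ℕ) (s : ℕ × Bool) => 2 * s.1 + (bif s.2 then 1 else 0)) s1_bits_comp
    (Computable.const 1) ?_
  show Computable fun p : List ℕ × (ℕ × Bool) => 2 * p.2.1 + (bif p.2.2 then 1 else 0)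
  fun_prop

end Pool.Agent.H646R2.NT
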