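import Pool.Agent.H646R2.NT.Acc
import Pool.Agent.H646R2.NT.S1

/-!
Task S2: simulation of a one-tape machine after a preparatory phase.
-/

set_option autoImplicit false

namespace Pool.Agent.H646R2.NT

open Encodable Pool.Agent.Helper446.RE Turing

/-! ### Encodings of finite types -/

theorem s2_exists_ec (Γ : Type) [Inhabited Γ] [Finite Γ] :
    ∃ ec : Γ → ℕ, Function.Injective ec ∧ ec default = 0 := by
  classical
  obtain ⟨n, ⟨e⟩⟩ := Finite.exists_equiv_fin Γ
  refine ⟨fun a => if a = default then 0 else (e a).val + 1, ?_, by simp⟩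
  intro a b h
  by_cases ha : a = default
  · by_cases hb : b = default
    · rw [ha, hb]
    · simp [ha, hb] at h
  · by_cases hb : b = default
    · simp [ha, hb] at h
    · simp only [ha, hb, if_false, Nat.add_right_cancel_iff] at h
      exact e.injective (Fin.ext h)

theorem s2_exists_el (Λ : Type) [Finite Λ] : ∃ el : Λ → ℕ, Function.Injective el := by
  obtain ⟨n, ⟨e⟩⟩ := Finite.exists_equiv_fin Λ
  exact ⟨fun a => (e a).val, fun a b h => e.injective (Fin.ext h)⟩

theorem s2_exists_list (α : Type) [Finite α] : ∃ l : List α, ∀ a, a ∈ l := by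
  classical
  have := Fintype.ofFinite α
  exact ⟨Finset.univ.toList, fun a => by simp⟩

/-! ### Deterministic runs -/

theorem s2_det_unique {M : Mach} (hM : Det M) {c d e : Cfg} (h1 : Step M c d) (h2 : Step M c e) :
    d = e := by
  obtain ⟨i, hi, a1, a2, a3⟩ := h1
  obtain ⟨j, hj, b1, b2, b3⟩ := h2
  have : i = j := hM i hi j hj (a1.trans b1.symm) (a2.trans b2.symm)
  rw [a3, b3, this]

theorem s2_reach_iff {M : Mach} {c d : Cfg} :
    (∃ n, Reach M n c d) ↔ Relation.ReflTransGen (Step M) c d := by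
  constructor
  · rintro ⟨n, hn⟩
    induction n generalizing d with
    | zero =>
      have : c = d := hn
      rw [this]
    | succ n ih =>
      obtain ⟨c', h1, h2⟩ := hn
      exact (ih h1).tail h2
  · intro h
    induction h with
    | refl => exact ⟨0, rfl⟩
    | tail _ h2 ih =>
      obtain ⟨n, hn⟩ := ih
      exact ⟨n + 1, _, hn, h2⟩

theorem s2_acc_iff {s : ℕ} {M : Mach} {w : W s} :
    (∃ n, Acc M w n) ↔ ∃ d, Relation.ReflTransGen (Step M) (init M w) d ∧ d.1 = 1 := by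
  constructor
  · rintro ⟨n, m, _, d, hd, h1⟩
    exact ⟨d, s2_reach_iff.1 ⟨m, hd⟩, h1⟩
  · rintro ⟨d, hd, h1⟩
    obtain ⟨m, hm⟩ := s2_reach_iff.2 hd
    exact ⟨m, m, le_rfl, d, hm, h1⟩

/-- Deterministic runs are linear. -/
theorem s2_linear {M : Mach} (hM : Det M) {c d e : Cfg} (h1 : Relation.ReflTransGen (Step M) c d)
    (h2 : Relation.ReflTransGen (Step M) c e) (he : ∀ f, ¬ Step M e f) :
    Relation.ReflTransGen (Step M) d e := by
  induction h1 using Relation.ReflTransGen.head_induction_on with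
  | refl => exact h2
  | head hs _ ih =>
    apply ih
    rcases Relation.ReflTransGen.cases_head h2 with h3 | ⟨g, hg, hge⟩
    · subst h3
      exact absurd hs (he _)
    · rwa [s2_det_unique hM hs hg]

section sim

variable {Γ Λ : Type} [Inhabited Γ] [Inhabited Λ]

/-- the new state and the action of the simulating machine -/
def s2_tgt (ec : Γ → ℕ) (el : Λ → ℕ) (M : TM0.Machine Γ Λ) (q : Λ) (b : Γ) : ℕ × ℕ × ℕ :=
  match M q b with
  | none => (1, ec b, 0)
  | some (q', TM0.Stmt.move Dir.left) => (6 + 2 * el q', ec b, 1)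
  | some (q', TM0.Stmt.move Dir.right) => (6 + 2 * el q', ec b, 2)
  | some (q', TM0.Stmt.write c) => (6 + 2 * el q', ec c, 0)

/-- simulation instruction -/
def s2_iS (ec : Γ → ℕ) (el : Λ → ℕ) (M : TM0.Machine Γ Λ) (q : Λ) (b : Γ) : Instr :=
  (6 + 2 * el q, [0, ec b], (s2_tgt ec el M q b).1, [(0, 0), (s2_tgt ec el M q b).2])

/-- the instructions which depend on `p` -/
def s2_V (s emk eo ez p : ℕ) : List Instr :=
  (List.range (s + 2)).flatMap fun x =>
    [(0, [x, 0], 2, [(x, 0), (emk, 2)]), (2, [x, 0], 5 + 2 * p, [(x, 0), (eo, 2)]),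
      (5, [x, 0], 3, [(x, 0), (ez, 2)])] ++
    (List.range (p + s)).map fun i => (7 + 2 * i, [x, 0], 5 + 2 * i, [(x, 0), (eo, 2)])

/-- the other instructions -/
def s2_K [DecidableEq Γ] (s : ℕ) (ec : Γ → ℕ) (el : Λ → ℕ) (M : TM0.Machine Γ Λ) (mk : Γ)
    (gl : List Γ) (ll : List Λ) : List Instr :=
  [(3, [0, 0], 4, [(0, 0), (0, 1)]), (4, [0, ec mk], 6 + 2 * el default, [(0, 0), (ec mk, 0)])] ++
  (List.range (s + 1)).map (fun a => (3, [a + 1, 0], 5 + 2 * a, [(a + 1, 2), (0, 0)])) ++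
  (gl.filter fun b => b ≠ mk).map (fun b => (4, [0, ec b], 4, [(0, 0), (ec b, 1)])) ++
  ll.flatMap fun q => gl.map fun b => s2_iS ec el M q b

/-- the machine -/
def s2_F [DecidableEq Γ] (s : ℕ) (ec : Γ → ℕ) (el : Λ → ℕ) (M : TM0.Machine Γ Λ) (mk o z : Γ)
    (gl : List Γ) (ll : List Λ) (p : ℕ) : Mach :=
  (2, s2_K s ec el M mk gl ll ++ s2_V s (ec mk) (ec o) (ec z) p)

theorem s2_V_comp (s emk eo ez : ℕ) : Computable fun p => s2_V s emk eo ez p := by
  unfold s2_V
  refine q_flatMap (l := fun _ : ℕ => List.range (s + 2)) (f := fun p x =>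
    [(0, [x, 0], 2, [(x, 0), (emk, 2)]), (2, [x, 0], 5 + 2 * p, [(x, 0), (eo, 2)]),
      (5, [x, 0], 3, [(x, 0), (ez, 2)])] ++
    (List.range (p + s)).map fun i => (7 + 2 * i, [x, 0], 5 + 2 * i, [(x, 0), (eo, 2)]))
    (cconst _) ?_
  refine cappend (by fun_prop) ?_
  exact q_map (l := fun y : ℕ × ℕ => List.range (y.1 + s)) (f := fun y i =>
    ((7 + 2 * i, [y.2, 0], 5 + 2 * i, [(y.2, 0), (eo, 2)]) : Instr)) (by fun_prop) (by fun_prop)

omit [Inhabited Γ] in
theorem s2_F_comp [DecidableEq Γ] (s : ℕ) (ec : Γ → ℕ) (el : Λ → ℕ) (M : TM0.Machine Γ Λ)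
    (mk o z : Γ) (gl : List Γ) (ll : List Λ) :
    Computable fun p => s2_F s ec el M mk o z gl ll p := by
  unfold s2_F
  exact cpair (cconst 2) (cappend (cconst _) (s2_V_comp s _ _ _))


/-! ### Well-formedness and determinism -/

omit [Inhabited Γ] in
theorem s2_F_wf [DecidableEq Γ] (s : ℕ) (ec : Γ → ℕ) (el : Λ → ℕ) (M : TM0.Machine Γ Λ)
    (mk o z : Γ) (gl : List Γ) (ll : List Λ) (p : ℕ) : WF (s2_F s ec el M mk o z gl ll p) := by
  refine ⟨by simp [s2_F], ?_⟩
  intro i hi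
  simp only [s2_F, s2_K, s2_V, List.mem_append, List.mem_flatMap, List.mem_map, List.mem_cons,
    List.mem_filter, List.not_mem_nil, or_false] at hi
  rcases hi with ((((rfl | rfl) | ⟨a, _, rfl⟩) | ⟨b, _, rfl⟩) | ⟨q, _, b, _, rfl⟩) |
    ⟨x, _, ((rfl | rfl | rfl) | ⟨i, _, rfl⟩)⟩ <;> simp [s2_F, s2_iS]

/-- the transition function -/
noncomputable def s2_de (ec : Γ → ℕ) (el : Λ → ℕ) (M : TM0.Machine Γ Λ) (mk o z : Γ) (p : ℕ)
    (q : ℕ) (l : List ℕ) : ℕ × List (ℕ × ℕ) :=
  if q = 0 then (2, [(l.headD 0, 0), (ec mk, 2)])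
  else if q = 2 then (5 + 2 * p, [(l.headD 0, 0), (ec o, 2)])
  else if q = 3 then (if l.headD 0 = 0 then (4, [(0, 0), (0, 1)])
    else (5 + 2 * (l.headD 0 - 1), [(l.headD 0, 2), (0, 0)]))
  else if q = 4 then (if l.tail.headD 0 = ec mk then (6 + 2 * el default, [(0, 0), (ec mk, 0)])
    else (4, [(0, 0), (l.tail.headD 0, 1)]))
  else if q % 2 = 1 then (if q = 5 then (3, [(l.headD 0, 0), (ec z, 2)])
    else (q - 2, [(l.headD 0, 0), (ec o, 2)]))
  else ((s2_tgt ec el M (Function.invFun el ((q - 6) / 2))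
      (Function.invFun ec (l.tail.headD 0))).1,
    [(0, 0), (s2_tgt ec el M (Function.invFun el ((q - 6) / 2))
      (Function.invFun ec (l.tail.headD 0))).2])

theorem s2_F_de [DecidableEq Γ] (s : ℕ) (ec : Γ → ℕ) (el : Λ → ℕ) (hec : Function.Injective ec)
    (hel : Function.Injective el) (M : TM0.Machine Γ Λ)
    (mk o z : Γ) (gl : List Γ) (ll : List Λ) (p : ℕ) (i : Instr)
    (hi : i ∈ (s2_F s ec el M mk o z gl ll p).2) :
    s2_de ec el M mk o z p i.1 i.2.1 = i.2.2 := by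
  simp only [s2_F, s2_K, s2_V, List.mem_append, List.mem_flatMap, List.mem_map, List.mem_cons,
    List.mem_filter, List.not_mem_nil, or_false] at hi
  rcases hi with ((((rfl | rfl) | ⟨a, _, rfl⟩) | ⟨b, ⟨_, hb⟩, rfl⟩) | ⟨q, _, b, _, rfl⟩) |
    ⟨x, _, ((rfl | rfl | rfl) | ⟨i, _, rfl⟩)⟩
  · simp [s2_de]
  · simp [s2_de]
  · simp [s2_de]
  · have hb' : b ≠ mk := by simpa using hb
    have : ec b ≠ ec mk := fun h => hb' (hec h)
    simp [s2_de, this]
  · have h1 : Function.invFun el (el q) = q := Function.leftInverse_invFun hel q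
    have h2 : Function.invFun ec (ec b) = b := Function.leftInverse_invFun hec b
    have h3 : (6 + 2 * el q - 6) / 2 = el q := by omega
    have h4 : ¬ (6 + 2 * el q) % 2 = 1 := by omega
    have h5 : ¬ (6 + 2 * el q) = 0 := by omega
    have h6 : ¬ (6 + 2 * el q) = 2 := by omega
    have h7 : ¬ (6 + 2 * el q) = 3 := by omega
    have h8 : ¬ (6 + 2 * el q) = 4 := by omega
    simp only [s2_de, s2_iS, h3, h4, h5, h6, h7, h8, if_false, List.tail_cons, List.headD_cons,
      h1, h2]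
  · simp [s2_de]
  · simp [s2_de]
  · simp [s2_de]
  · have h4 : (7 + 2 * i) % 2 = 1 := by omega
    have h5 : ¬ (7 + 2 * i) = 0 := by omega
    have h6 : ¬ (7 + 2 * i) = 2 := by omega
    have h7 : ¬ (7 + 2 * i) = 3 := by omega
    have h8 : ¬ (7 + 2 * i) = 4 := by omega
    have h9 : ¬ (7 + 2 * i) = 5 := by omega
    have h3 : 7 + 2 * i - 2 = 5 + 2 * i := by omega
    simp only [s2_de, h3, h4, h5, h6, h7, h8, h9, if_false, if_true, List.headD_cons]


theorem s2_F_det [DecidableEq Γ] (s : ℕ) (ec : Γ → ℕ) (el : Λ → ℕ) (hec : Function.Injective ec)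
    (hel : Function.Injective el) (M : TM0.Machine Γ Λ)
    (mk o z : Γ) (gl : List Γ) (ll : List Λ) (p : ℕ) : Det (s2_F s ec el M mk o z gl ll p) := by
  intro i hi j hj h1 h2
  have a := s2_F_de s ec el hec hel M mk o z gl ll p i hi
  have b := s2_F_de s ec el hec hel M mk o z gl ll p j hj
  rw [h1, h2] at a
  exact Prod.ext h1 (Prod.ext h2 (a.symm.trans b))

/-! ### Steps -/

theorem s2_step {N : Mach} {q x y q' : ℕ} {a0 a1 : ℕ × ℕ}
    (hi : ((q, [x, y], q', [a0, a1]) : Instr) ∈ N.2) {T0 T1 : Tape} (h0 : rd T0 = x)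
    (h1 : rd T1 = y) : Step N (q, [T0, T1]) (q', [act a0 T0, act a1 T1]) :=
  ⟨_, hi, rfl, by simp [h0, h1], by simp⟩

theorem s2_rd_act (T : Tape) : rd (act (0, 0) T) = 0 := rfl

/-- representation of tapes -/
def s2_Rep (ec : Γ → ℕ) (T : Tape) (U : Turing.Tape Γ) : Prop :=
  ∃ L R : List Γ, T = (L.map ec, R.map ec) ∧
    U = Turing.Tape.mk' (ListBlank.mk L) (ListBlank.mk R)

theorem s2_rep_rd {ec : Γ → ℕ} (h0 : ec default = 0) {T : Tape} {U : Turing.Tape Γ}
    (h : s2_Rep ec T U) : rd T = ec U.head := by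
  obtain ⟨L, R, rfl, rfl⟩ := h
  rw [Turing.Tape.mk'_head, ListBlank.head_mk]
  cases R with
  | nil => simp [rd, h0]
  | cons a R => simp [rd]

theorem s2_rep_write {ec : Γ → ℕ} {T : Tape} {U : Turing.Tape Γ}
    (h : s2_Rep ec T U) (b : Γ) : s2_Rep ec (act (ec b, 0) T) (U.write b) := by
  obtain ⟨L, R, rfl, rfl⟩ := h
  refine ⟨L, b :: R.tail, ?_, ?_⟩
  · simp [act]
  · simp [Turing.Tape.mk', Turing.Tape.write]

theorem s2_rep_left {ec : Γ → ℕ} (h0 : ec default = 0) {T : Tape} {U : Turing.Tape Γ}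
    (h : s2_Rep ec T U) : s2_Rep ec (act (ec U.head, 1) T) (U.move Dir.left) := by
  obtain ⟨L, R, rfl, rfl⟩ := h
  refine ⟨L.tail, L.headI :: R.headI :: R.tail, ?_, ?_⟩
  · rw [Turing.Tape.mk'_head, ListBlank.head_mk]
    cases L with
    | nil => simp [act, h0]
    | cons a L => simp [act]
  · rw [Turing.Tape.move_left_mk', ← ListBlank.tail_mk, ← ListBlank.cons_mk, ← ListBlank.cons_mk,
      ← ListBlank.tail_mk, ← ListBlank.head_mk, ← ListBlank.head_mk, ListBlank.cons_head_tail]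

theorem s2_rep_right {ec : Γ → ℕ} {T : Tape} {U : Turing.Tape Γ}
    (h : s2_Rep ec T U) : s2_Rep ec (act (ec U.head, 2) T) (U.move Dir.right) := by
  obtain ⟨L, R, rfl, rfl⟩ := h
  refine ⟨R.headI :: L, R.tail, ?_, ?_⟩
  · rw [Turing.Tape.mk'_head, ListBlank.head_mk]
    simp [act]
  · rw [Turing.Tape.move_right_mk', ← ListBlank.tail_mk, ← ListBlank.cons_mk, ← ListBlank.head_mk]

variable [DecidableEq Γ] {s : ℕ} {ec : Γ → ℕ} {el : Λ → ℕ}
  {M : TM0.Machine Γ Λ} {mk o z : Γ} {gl : List Γ} {ll : List Λ} {p : ℕ}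

theorem s2_sim_none (h0 : ec default = 0) (hgl : ∀ a, a ∈ gl) (hll : ∀ a, a ∈ ll) {q : Λ}
    {T0 T1 : Tape} {U : Turing.Tape Γ} (hT0 : rd T0 = 0) (hT1 : s2_Rep ec T1 U)
    (h : TM0.step M ⟨q, U⟩ = none) :
    ∃ d, Step (s2_F s ec el M mk o z gl ll p) (6 + 2 * el q, [T0, T1]) d ∧ d.1 = 1 := by
  have hM : M q U.head = none := by simpa [TM0.step] using h
  have hmem : s2_iS ec el M q U.head ∈ (s2_F s ec el M mk o z gl ll p).2 := by
    simp only [s2_F, s2_K, List.mem_append, List.mem_flatMap, List.mem_map]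
    exact Or.inl (Or.inr ⟨q, hll q, U.head, hgl _, rfl⟩)
  have htgt : s2_tgt ec el M q U.head = (1, ec U.head, 0) := by simp [s2_tgt, hM]
  rw [s2_iS, htgt] at hmem
  exact ⟨_, s2_step hmem hT0 (s2_rep_rd h0 hT1), rfl⟩

theorem s2_sim_some (h0 : ec default = 0) (hgl : ∀ a, a ∈ gl) (hll : ∀ a, a ∈ ll) {q : Λ}
    {T0 T1 : Tape} {U : Turing.Tape Γ} (hT0 : rd T0 = 0) (hT1 : s2_Rep ec T1 U)
    {c : TM0.Cfg Γ Λ} (h : TM0.step M ⟨q, U⟩ = some c) :
    ∃ T0' T1', Step (s2_F s ec el M mk o z gl ll p) (6 + 2 * el q, [T0, T1])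
      (6 + 2 * el c.q, [T0', T1']) ∧ rd T0' = 0 ∧ s2_Rep ec T1' c.Tape := by
  have hmem : s2_iS ec el M q U.head ∈ (s2_F s ec el M mk o z gl ll p).2 := by
    simp only [s2_F, s2_K, List.mem_append, List.mem_flatMap, List.mem_map]
    exact Or.inl (Or.inr ⟨q, hll q, U.head, hgl _, rfl⟩)
  rw [s2_iS] at hmem
  have hst := s2_step hmem hT0 (s2_rep_rd h0 hT1)
  simp only [TM0.step, Option.map_eq_some_iff] at h
  obtain ⟨⟨q', a⟩, hM, hc⟩ := h
  subst hc
  rcases a with d | b
  · cases d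
    · have htgt : s2_tgt ec el M q U.head = (6 + 2 * el q', ec U.head, 1) := by
        simp [s2_tgt, hM]
      rw [htgt] at hst
      exact ⟨_, _, hst, rfl, s2_rep_left h0 hT1⟩
    · have htgt : s2_tgt ec el M q U.head = (6 + 2 * el q', ec U.head, 2) := by
        simp [s2_tgt, hM]
      rw [htgt] at hst
      exact ⟨_, _, hst, rfl, s2_rep_right hT1⟩
  · have htgt : s2_tgt ec el M q U.head = (6 + 2 * el q', ec b, 0) := by
      simp [s2_tgt, hM]
    rw [htgt] at hst
    exact ⟨_, _, hst, rfl, s2_rep_write hT1 b⟩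

theorem s2_sim_aux (h0 : ec default = 0) (hec : Function.Injective ec)
    (hel : Function.Injective el) (hgl : ∀ a, a ∈ gl) (hll : ∀ a, a ∈ ll) {e d : Cfg}
    (hd : Relation.ReflTransGen (Step (s2_F s ec el M mk o z gl ll p)) e d) (hd1 : d.1 = 1) :
    ∀ (c : TM0.Cfg Γ Λ) (T0 T1 : Tape), e = (6 + 2 * el c.q, [T0, T1]) → rd T0 = 0 →
      s2_Rep ec T1 c.Tape → (StateTransition.eval (TM0.step M) c).Dom := by
  induction hd using Relation.ReflTransGen.head_induction_on with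
  | refl =>
    intro c T0 T1 he _ _
    rw [he] at hd1
    simp only at hd1
    omega
  | head hs _ ih =>
    intro c T0 T1 he hT0 hT1
    subst he
    cases hc : TM0.step M c with
    | none =>
      exact Part.dom_iff_mem.2 ⟨c, StateTransition.mem_eval.2 ⟨Relation.ReflTransGen.refl, hc⟩⟩
    | some c' =>
      obtain ⟨T0', T1', h1, h2, h3⟩ := s2_sim_some (s := s) (p := p) (mk := mk) (o := o) (z := z)
        (el := el) (M := M) (q := c.q) h0 hgl hll hT0 hT1 (c := c') hc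
      have h4 := s2_det_unique (s2_F_det s ec el hec hel M mk o z gl ll p) hs h1
      have h5 := ih c' T0' T1' h4 h2 h3
      rwa [StateTransition.reaches_eval (Relation.ReflTransGen.single hc)]

theorem s2_sim (h0 : ec default = 0) (hec : Function.Injective ec) (hel : Function.Injective el)
    (hgl : ∀ a, a ∈ gl) (hll : ∀ a, a ∈ ll)
    {T0 T1 : Tape} (c : TM0.Cfg Γ Λ) (hT0 : rd T0 = 0) (hT1 : s2_Rep ec T1 c.Tape) :
    (∃ d, Relation.ReflTransGen (Step (s2_F s ec el M mk o z gl ll p))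
      (6 + 2 * el c.q, [T0, T1]) d ∧ d.1 = 1) ↔
    (StateTransition.eval (TM0.step M) c).Dom := by
  constructor
  · rintro ⟨d, hd, hd1⟩
    exact s2_sim_aux h0 hec hel hgl hll hd hd1 c T0 T1 rfl hT0 hT1
  · intro h
    obtain ⟨c', hc'⟩ := Part.dom_iff_mem.1 h
    obtain ⟨hr, hh⟩ := StateTransition.mem_eval.1 hc'
    clear h hc'
    induction hr using Relation.ReflTransGen.head_induction_on generalizing T0 T1 with
    | refl =>
      obtain ⟨d, hd, hd1⟩ := s2_sim_none (s := s) (p := p) (mk := mk) (o := o) (z := z)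
        (el := el) (M := M) (q := c'.q) h0 hgl hll hT0 hT1 hh
      exact ⟨d, Relation.ReflTransGen.single hd, hd1⟩
    | @head a b hs _ ih =>
      obtain ⟨T0', T1', h1, h2, h3⟩ := s2_sim_some (s := s) (p := p) (mk := mk) (o := o) (z := z)
        (el := el) (M := M) (q := a.q) h0 hgl hll hT0 hT1 (c := b) hs
      obtain ⟨d, hd, hd1⟩ := ih h2 h3
      exact ⟨d, hd.head h1, hd1⟩

/-! ### The preparatory phase -/

/-- the remaining input is `u` -/
def s2_In (T : Tape) (u : W s) : Prop :=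
  ∃ k, T.2 = (u.map fun a => a.val + 1) ++ List.replicate k 0

omit [DecidableEq Γ] [Inhabited Γ] in
theorem s2_in_nil {T : Tape} (h : s2_In (s := s) T []) : rd T = 0 := by
  obtain ⟨k, hk⟩ := h
  cases k <;> simp [rd, hk, List.replicate_succ]

theorem s2_in_cons {T : Tape} {a : Fin (s + 1)} {u : W s} (h : s2_In T (a :: u)) :
    rd T = a.val + 1 := by
  obtain ⟨k, hk⟩ := h
  simp [rd, hk]

theorem s2_in_lt {T : Tape} {u : W s} (h : s2_In T u) : rd T < s + 2 := by
  cases u with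
  | nil => rw [s2_in_nil h]; omega
  | cons a u => rw [s2_in_cons h]; omega

theorem s2_in_stay {T : Tape} {u : W s} (h : s2_In T u) : s2_In (act (rd T, 0) T) u := by
  cases u with
  | nil =>
    rw [s2_in_nil h]
    obtain ⟨k, hk⟩ := h
    cases k with
    | zero => exact ⟨1, by simp [act, hk]⟩
    | succ k => exact ⟨k + 1, by simp [act, hk, List.replicate_succ]⟩
  | cons a u =>
    rw [s2_in_cons h]
    obtain ⟨k, hk⟩ := h
    exact ⟨k, by simp [act, hk]⟩

theorem s2_in_right {T : Tape} {a : Fin (s + 1)} {u : W s} (h : s2_In T (a :: u)) (x : ℕ) :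
    s2_In (act (x, 2) T) u := by
  obtain ⟨k, hk⟩ := h
  exact ⟨k, by simp [act, hk]⟩

/-- `l` has been written on the tape -/
def s2_Wr (ec : Γ → ℕ) (T : Tape) (l : List Γ) : Prop :=
  T.1 = (l.map ec).reverse ∧ T.2.headD 0 = 0 ∧ T.2.tail = []

omit [Inhabited Γ] [DecidableEq Γ] in
theorem s2_wr_rd {T : Tape} {l : List Γ} (h : s2_Wr ec T l) : rd T = 0 := h.2.1

omit [Inhabited Γ] [DecidableEq Γ] in
theorem s2_wr_write {T : Tape} {l : List Γ} (h : s2_Wr ec T l) (b : Γ) :
    s2_Wr ec (act (ec b, 2) T) (l ++ [b]) := by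
  obtain ⟨h1, h2, h3⟩ := h
  refine ⟨?_, ?_, ?_⟩ <;> simp [act, h1, h3]

omit [Inhabited Γ] [DecidableEq Γ] in
theorem s2_wr_stay {T : Tape} {l : List Γ} (h : s2_Wr ec T l) :
    s2_Wr ec (act (0, 0) T) l := by
  obtain ⟨h1, h2, h3⟩ := h
  refine ⟨?_, ?_, ?_⟩ <;> simp [act, h1, h3]

omit [Inhabited Γ] in
theorem s2_block {u : W s} (i : ℕ) : ∀ {T0 T1 : Tape} {l : List Γ}, i ≤ p + s → s2_In T0 u →
    s2_Wr ec T1 l → ∃ T0' T1', Relation.ReflTransGen (Step (s2_F s ec el M mk o z gl ll p))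
      (5 + 2 * i, [T0, T1]) (3, [T0', T1']) ∧ s2_In T0' u ∧
        s2_Wr ec T1' (l ++ (List.replicate i true ++ [false]).map fun b => bif b then o else z) := by
  induction i with
  | zero =>
    intro T0 T1 l _ h0 h1
    have hmem : ((5, [rd T0, 0], 3, [(rd T0, 0), (ec z, 2)]) : Instr) ∈
        (s2_F s ec el M mk o z gl ll p).2 := by
      simp only [s2_F, s2_V, List.mem_append, List.mem_flatMap, List.mem_range]
      exact Or.inr ⟨rd T0, s2_in_lt h0, Or.inl (by simp)⟩
    refine ⟨_, _, Relation.ReflTransGen.single (s2_step hmem rfl (s2_wr_rd h1)), s2_in_stay h0, ?_⟩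
    exact s2_wr_write h1 z
  | succ i ih =>
    intro T0 T1 l hi h0 h1
    have hmem : ((7 + 2 * i, [rd T0, 0], 5 + 2 * i, [(rd T0, 0), (ec o, 2)]) : Instr) ∈
        (s2_F s ec el M mk o z gl ll p).2 := by
      simp only [s2_F, s2_V, List.mem_append, List.mem_flatMap, List.mem_range]
      refine Or.inr ⟨rd T0, s2_in_lt h0, Or.inr ?_⟩
      rw [List.mem_map]
      exact ⟨i, List.mem_range.2 (by omega), rfl⟩
    have hst := s2_step hmem rfl (s2_wr_rd h1)
    obtain ⟨T0', T1', h2, h3, h4⟩ := ih (by omega) (s2_in_stay h0) (s2_wr_write h1 o)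
    refine ⟨T0', T1', ?_, h3, ?_⟩
    · have : 5 + 2 * (i + 1) = 7 + 2 * i := by omega
      rw [this]
      exact h2.head hst
    · simpa [List.replicate_succ] using h4

omit [Inhabited Γ] in
theorem s2_read {u : W s} : ∀ {T0 T1 : Tape} {l : List Γ}, s2_In T0 u →
    s2_Wr ec T1 l → ∃ T0' T1', Relation.ReflTransGen (Step (s2_F s ec el M mk o z gl ll p))
      (3, [T0, T1]) (3, [T0', T1']) ∧ s2_In (s := s) T0' [] ∧
        s2_Wr ec T1' (l ++ (bits (u.map fun a => a.val)).map fun b => bif b then o else z) := by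
  induction u with
  | nil =>
    intro T0 T1 l h0 h1
    exact ⟨T0, T1, Relation.ReflTransGen.refl, h0, by simpa [bits] using h1⟩
  | cons a u ih =>
    intro T0 T1 l h0 h1
    have hmem : ((3, [a.val + 1, 0], 5 + 2 * a.val, [(a.val + 1, 2), (0, 0)]) : Instr) ∈
        (s2_F s ec el M mk o z gl ll p).2 := by
      simp only [s2_F, s2_K, List.mem_append, List.mem_map]
      exact Or.inl (Or.inl (Or.inl (Or.inr ⟨a.val, List.mem_range.2 a.isLt, rfl⟩)))
    have hst := s2_step hmem (s2_in_cons h0) (s2_wr_rd h1)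
    obtain ⟨T0', T1', h2, h3, h4⟩ := s2_block (s := s) (ec := ec) (el := el) (M := M) (mk := mk)
      (o := o) (z := z) (gl := gl) (ll := ll) (p := p) a.val (by omega) (s2_in_right h0 _)
      (s2_wr_stay h1)
    obtain ⟨T0'', T1'', h5, h6, h7⟩ := ih h3 h4
    refine ⟨T0'', T1'', (h2.head hst).trans h5, h6, ?_⟩
    simpa [bits, List.append_assoc] using h7

omit [Inhabited Γ] in
theorem s2_rewind (hgl : ∀ a, a ∈ gl) (L : List Γ) : ∀ (b : Γ) (R : List Γ) (T0 : Tape),
    rd T0 = 0 → b ≠ mk → (∀ c ∈ L, c ≠ mk) →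
    ∃ T0', Relation.ReflTransGen (Step (s2_F s ec el M mk o z gl ll p))
      (4, [T0, ((L ++ [mk]).map ec, (b :: R).map ec)])
      (4, [T0', (([] : List Γ).map ec, (mk :: (L.reverse ++ b :: R)).map ec)]) ∧ rd T0' = 0 := by
  induction L with
  | nil =>
    intro b R T0 h0 hb _
    have hmem : ((4, [0, ec b], 4, [(0, 0), (ec b, 1)]) : Instr) ∈
        (s2_F s ec el M mk o z gl ll p).2 := by
      simp only [s2_F, s2_K, List.mem_append, List.mem_map, List.mem_filter]
      exact Or.inl (Or.inl (Or.inr ⟨b, ⟨hgl b, by simpa using hb⟩, rfl⟩))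
    have hst := s2_step hmem h0 (T1 := ((([] : List Γ) ++ [mk]).map ec, (b :: R).map ec))
      (by simp [rd])
    exact ⟨_, Relation.ReflTransGen.single hst, rfl⟩
  | cons c L ih =>
    intro b R T0 h0 hb hL
    have hmem : ((4, [0, ec b], 4, [(0, 0), (ec b, 1)]) : Instr) ∈
        (s2_F s ec el M mk o z gl ll p).2 := by
      simp only [s2_F, s2_K, List.mem_append, List.mem_map, List.mem_filter]
      exact Or.inl (Or.inl (Or.inr ⟨b, ⟨hgl b, by simpa using hb⟩, rfl⟩))
    have hst := s2_step hmem h0 (T1 := ((c :: L ++ [mk]).map ec, (b :: R).map ec))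
      (by simp [rd])
    obtain ⟨T0', h1, h2⟩ := ih c (b :: R) (act (0, 0) T0) rfl (hL c (by simp))
      (fun d hd => hL d (by simp [hd]))
    refine ⟨T0', ?_, h2⟩
    have h3 := h1.head hst
    simpa using h3

theorem s2_prep (hgl : ∀ a, a ∈ gl) (h0 : ec default = 0) (w : W s) (h1 : mk ≠ o) (h2 : mk ≠ z) :
    ∃ T0' T1', Relation.ReflTransGen (Step (s2_F s ec el M mk o z gl ll p))
      (init (s2_F s ec el M mk o z gl ll p) w) (6 + 2 * el default, [T0', T1']) ∧ rd T0' = 0 ∧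
      s2_Rep ec T1' (Turing.Tape.mk₁ (mk :: o :: (bits (p :: w.map fun a => a.val)).map
          fun b => bif b then o else z)) := by
  set f : Bool → Γ := fun b => bif b then o else z with hf
  set l' : List Γ := o :: (bits (p :: w.map fun a => a.val)).map f with hl'
  have hne : ∀ c ∈ l', c ≠ mk := by
    intro c hc
    rw [hl', List.mem_cons, List.mem_map] at hc
    rcases hc with rfl | ⟨b, _, rfl⟩
    · exact h1.symm
    · cases b
      · exact h2.symm
      · exact h1.symm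
  -- the two first steps
  have hin0 : s2_In (([], w.map fun a => a.val + 1) : Tape) w := ⟨0, by simp⟩
  have hwr0 : s2_Wr ec (([], []) : Tape) [] := ⟨by simp, rfl, rfl⟩
  have hmem0 : ((0, [rd (([], w.map fun a => a.val + 1) : Tape), 0], 2,
      [(rd (([], w.map fun a => a.val + 1) : Tape), 0), (ec mk, 2)]) : Instr) ∈
        (s2_F s ec el M mk o z gl ll p).2 := by
    simp only [s2_F, s2_V, List.mem_append, List.mem_flatMap, List.mem_range]
    exact Or.inr ⟨_, s2_in_lt hin0, Or.inl (by simp)⟩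
  have hst0 := s2_step hmem0 rfl (s2_wr_rd hwr0)
  have hin1 := s2_in_stay hin0
  have hwr1 := s2_wr_write hwr0 mk
  set T0a := act (rd (([], w.map fun a => a.val + 1) : Tape), 0) ([], w.map fun a => a.val + 1)
    with hT0a
  have hmem2 : ((2, [rd T0a, 0], 5 + 2 * p, [(rd T0a, 0), (ec o, 2)]) : Instr) ∈
        (s2_F s ec el M mk o z gl ll p).2 := by
    simp only [s2_F, s2_V, List.mem_append, List.mem_flatMap, List.mem_range]
    exact Or.inr ⟨_, s2_in_lt hin1, Or.inl (by simp)⟩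
  have hst1 := s2_step hmem2 rfl (s2_wr_rd hwr1)
  have hin2 := s2_in_stay hin1
  have hwr2 := s2_wr_write hwr1 o
  obtain ⟨T0b, T1b, hr3, hin3, hwr3⟩ := s2_block (s := s) (ec := ec) (el := el) (M := M)
    (mk := mk) (o := o) (z := z) (gl := gl) (ll := ll) (p := p) p (by omega) hin2 hwr2
  obtain ⟨T0c, T1c, hr4, hin4, hwr4⟩ := s2_read (s := s) (ec := ec) (el := el) (M := M)
    (mk := mk) (o := o) (z := z) (gl := gl) (ll := ll) (p := p) hin3 hwr3
  have hwr5 : s2_Wr ec T1c (mk :: l') := by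
    have : mk :: l' = ([] ++ [mk] ++ [o] ++ (List.replicate p true ++ [false]).map
        (fun b => bif b then o else z) ++ (bits (w.map fun a => a.val)).map
          fun b => bif b then o else z) := by
      simp [hl', hf, bits]
    rw [this]
    exact hwr4
  -- end of the input
  have hmem3 : ((3, [0, 0], 4, [(0, 0), (0, 1)]) : Instr) ∈
        (s2_F s ec el M mk o z gl ll p).2 := by
    simp [s2_F, s2_K]
  have hst3 := s2_step hmem3 (s2_in_nil hin4) (s2_wr_rd hwr5)
  obtain ⟨b, L, hbL⟩ : ∃ b L, l'.reverse = b :: L := by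
    cases h : l'.reverse with
    | nil => rw [hl'] at h; simp at h
    | cons b L => exact ⟨b, L, rfl⟩
  have hl'2 : l' = L.reverse ++ [b] := by
    have := congrArg List.reverse hbL
    simpa using this
  have hT1 : act (0, 1) T1c = ((L ++ [mk]).map ec, (b :: [default]).map ec) := by
    obtain ⟨e1, e2, e3⟩ := hwr5
    have e4 : T1c.1 = ec b :: (L ++ [mk]).map ec := by
      rw [e1, ← List.map_reverse, List.reverse_cons, hbL]
      simp
    simp [act, e4, e3, h0]
  rw [hT1] at hst3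
  obtain ⟨T0d, hr5, hT0d⟩ := s2_rewind (s := s) (ec := ec) (el := el) (M := M)
    (mk := mk) (o := o) (z := z) (gl := gl) (ll := ll) (p := p) hgl L b [default]
    (act (0, 0) T0c) rfl (hne b (by rw [hl'2]; simp))
    (fun c hc => hne c (by rw [hl'2]; simp [hc]))
  have hmem4 : ((4, [0, ec mk], 6 + 2 * el default, [(0, 0), (ec mk, 0)]) : Instr) ∈
        (s2_F s ec el M mk o z gl ll p).2 := by
    simp [s2_F, s2_K]
  have hst4 := s2_step hmem4 hT0d
    (T1 := (([] : List Γ).map ec, (mk :: (L.reverse ++ b :: [default])).map ec)) (by simp [rd])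
  refine ⟨_, _, (((((hr3.head hst1).head hst0).trans hr4).tail hst3).trans hr5).tail hst4,
    s2_rd_act _, ?_⟩
  · refine ⟨[], mk :: (L.reverse ++ b :: [default]), ?_, ?_⟩
    · simp [act]
    · have h5 : ListBlank.mk (mk :: (L.reverse ++ b :: [default])) = ListBlank.mk (mk :: l') := by
        rw [hl'2]
        refine Quotient.sound' (Or.inr ⟨1, ?_⟩)
        simp
      rw [h5]
      rfl

end sim

theorem exists_sim (s : ℕ) {Γ Λ : Type} [Inhabited Γ] [Finite Γ] [Inhabited Λ] [Finite Λ]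
    (M : TM0.Machine Γ Λ) (mk o z : Γ) (h1 : mk ≠ o) (h2 : mk ≠ z) (_h3 : mk ≠ default) :
    ∃ F : ℕ → Mach, Computable F ∧ (∀ p, WF (F p) ∧ Det (F p)) ∧ ∀ p (w : W s),
      (∃ n, Acc (F p) w n) ↔ (StateTransition.eval (TM0.step M)
        (TM0.init (mk :: o :: (bits (p :: w.map fun a => a.val)).map
          fun b => bif b then o else z))).Dom := by
  classical
  obtain ⟨ec, hec, h0⟩ := s2_exists_ec Γ
  obtain ⟨el, hel⟩ := s2_exists_el Λ
  obtain ⟨gl, hgl⟩ := s2_exists_list Γ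
  obtain ⟨ll, hll⟩ := s2_exists_list Λ
  refine ⟨s2_F s ec el M mk o z gl ll, s2_F_comp s ec el M mk o z gl ll, fun p =>
    ⟨s2_F_wf s ec el M mk o z gl ll p, s2_F_det s ec el hec hel M mk o z gl ll p⟩, ?_⟩
  intro p w
  obtain ⟨T0, T1, hr, hT0, hT1⟩ := s2_prep (s := s) (ec := ec) (el := el) (M := M) (mk := mk)
    (o := o) (z := z) (gl := gl) (ll := ll) (p := p) hgl h0 w h1 h2
  rw [s2_acc_iff, ← s2_sim (s := s) (ec := ec) (el := el) (M := M) (mk := mk)
    (o := o) (z := z) (gl := gl) (ll := ll) (p := p) h0 hec hel hgl hll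
    (TM0.init (mk :: o :: (bits (p :: w.map fun a => a.val)).map
          fun b => bif b then o else z)) hT0 hT1]
  have hdet := s2_F_det s ec el hec hel M mk o z gl ll p
  constructor
  · rintro ⟨d, hd, hd1⟩
    refine ⟨d, ?_, hd1⟩
    refine s2_linear hdet hr hd ?_
    rintro f ⟨i, hi, hi1, _⟩
    rw [hd1] at hi1
    simp only [s2_F, s2_K, s2_V, List.mem_append, List.mem_flatMap, List.mem_map, List.mem_cons,
      List.mem_filter, List.not_mem_nil, or_false] at hi
    rcases hi with ((((rfl | rfl) | ⟨a, _, rfl⟩) | ⟨b, _, rfl⟩) | ⟨q, _, b, _, rfl⟩) |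
      ⟨x, _, ((rfl | rfl | rfl) | ⟨i, _, rfl⟩)⟩ <;> simp [s2_iS] at hi1 <;> omega
  · rintro ⟨d, hd, hd1⟩
    exact ⟨d, hr.trans hd, hd1⟩

end Pool.Agent.H646R2.NT
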