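import Pool.Agent.H646R2.NT.S1
import Pool.Agent.H646R2.NT.S2
import Pool.Agent.Helper702.SF.P_exists_machine

/-!
Every r.e. condition on words has a machine, uniformly (task S3).
-/

set_option autoImplicit false

namespace Pool.Agent.H646R2.NT

open Encodable Nat.Partrec Pool.Agent.Helper446.RE Turing

/-- one stage of the search for a code, a word and a terminating computation -/
def s3_f (s : ℕ) (n m : ℕ) : Option ℕ :=
  (decode (α := Code × W s) m.unpair.1).elim none fun x =>
    bif decide (NN (encode x.1 :: x.2.map fun a => a.val) = n) then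
      Code.evaln m.unpair.2 x.1 (encode x.2) else none

theorem s3_f_comp (s : ℕ) : Computable₂ (s3_f s) := by
  unfold s3_f
  have hval : Computable fun a : Fin (s + 1) => a.val := Primrec.fin_val.to_comp
  have hdec : Computable fun p : ℕ × ℕ => decode (α := Code × W s) p.2.unpair.1 := by
    have h1 : Computable fun n : ℕ => decode (α := Code × W s) n := Computable.decode
    exact h1.comp (by fun_prop)
  refine q_elim (f := fun p : ℕ × ℕ => decode (α := Code × W s) p.2.unpair.1)
    (g := fun _ => (none : Option ℕ))
    (h := fun (p : ℕ × ℕ) (x : Code × W s) =>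
      bif decide (NN (encode x.1 :: x.2.map fun a => a.val) = p.1) then
      Code.evaln p.2.unpair.2 x.1 (encode x.2) else none) hdec (by fun_prop) ?_
  have hmap : Computable fun p : (ℕ × ℕ) × (Code × W s) => p.2.2.map fun a => a.val :=
    q_map (l := fun p : (ℕ × ℕ) × (Code × W s) => p.2.2)
      (f := fun (_ : (ℕ × ℕ) × (Code × W s)) (a : Fin (s + 1)) => a.val) (by fun_prop)
      (hval.comp Computable.snd)
  have henc : Computable fun p : (ℕ × ℕ) × (Code × W s) => encode p.2.1 := by fun_prop
  have hNN : Computable fun p : (ℕ × ℕ) × (Code × W s) =>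
      NN (encode p.2.1 :: p.2.2.map fun a => a.val) := NN_comp.comp (ccons henc hmap)
  have h1 : Computable fun x : (ℕ × Code) × ℕ => (Code.evaln x.1.1 x.1.2 x.2) :=
    Code.primrec_evaln.to_comp
  have hev : Computable fun p : (ℕ × ℕ) × (Code × W s) =>
      Code.evaln p.1.2.unpair.2 p.2.1 (encode p.2.2) := by
    refine h1.comp (f := fun x : (ℕ × Code) × ℕ => (Code.evaln x.1.1 x.1.2 x.2))
      (g := fun p : (ℕ × ℕ) × (Code × W s) => ((p.1.2.unpair.2, p.2.1), encode p.2.2)) ?_
    fun_prop
  exact ccond (q_eq hNN (by fun_prop)) hev (by fun_prop)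

theorem exists_compile (s : ℕ) : ∃ F : Code → Mach, Computable F ∧
    (∀ c, WF (F c) ∧ Det (F c)) ∧
      ∀ c (w : W s), (∃ n, Acc (F c) w n) ↔ (c.eval (encode w)).Dom := by
  classical
  obtain ⟨Λ, iΛ, fΛ, M, hM⟩ := Pool.SF.exists_machine (fun n => Nat.rfindOpt (s3_f s n))
    (Partrec.rfindOpt (s3_f_comp s))
  have hfin : Finite Pool.SF.TA := by
    have hK : Finite PartrecToTM2.K' := by
      apply Finite.of_surjective (fun i : Fin 4 => (![PartrecToTM2.K'.main, PartrecToTM2.K'.rev,
        PartrecToTM2.K'.aux, PartrecToTM2.K'.stack] : Fin 4 → PartrecToTM2.K') i)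
      intro x
      cases x
      · exact ⟨0, rfl⟩
      · exact ⟨1, rfl⟩
      · exact ⟨2, rfl⟩
      · exact ⟨3, rfl⟩
    have hF : Finite (PartrecToTM2.K' → Option PartrecToTM2.Γ') := Pi.finite
    exact Finite.instProd
  have hd : Pool.SF.sym true .cons ≠ default := by
    intro h
    have := congrArg Prod.fst h
    exact absurd this (by decide)
  have hd1 : Pool.SF.sym true .cons ≠ Pool.SF.sym false .bit1 := by
    intro h
    have := congrArg Prod.fst h
    exact absurd this (by decide)
  have hd0 : Pool.SF.sym true .cons ≠ Pool.SF.sym false .bit0 := by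
    intro h
    have := congrArg Prod.fst h
    exact absurd this (by decide)
  obtain ⟨F, hF, hwf, hacc⟩ := exists_sim s M (Pool.SF.sym true .cons)
    (Pool.SF.sym false .bit1) (Pool.SF.sym false .bit0) hd1 hd0 hd
  refine ⟨fun c => F (encode c), hF.comp Computable.encode, fun c => hwf _, ?_⟩
  intro c w
  rw [hacc]
  have h1 := hM (NN (encode c :: w.map fun a => a.val))
  rw [trNat_NN, List.map_cons, List.map_map] at h1
  have h2 : ((Pool.SF.sym false ∘ fun b =>
      bif b then PartrecToTM2.Γ'.bit1 else PartrecToTM2.Γ'.bit0) : Bool → Pool.SF.TA) =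
      fun b => bif b then Pool.SF.sym false .bit1 else Pool.SF.sym false .bit0 := by
    funext b
    cases b <;> rfl
  rw [h2] at h1
  rw [h1, Nat.rfindOpt_dom]
  constructor
  · rintro ⟨m, a, ha⟩
    unfold s3_f at ha
    rcases hd : decode (α := Code × W s) m.unpair.1 with _ | x
    · rw [hd] at ha
      simp at ha
    · rw [hd, Option.elim_some] at ha
      by_cases hx : NN (encode x.1 :: x.2.map fun a => a.val) =
        NN (encode c :: w.map fun a => a.val)
      · rw [decide_eq_true hx, cond_true] at ha
        have h3 := NN_inj hx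
        have h4 := (List.cons.inj h3).1
        have h5 := (List.cons.inj h3).2
        have h6 : x.1 = c := encode_injective h4
        have h7 : x.2 = w := List.map_injective_iff.mpr Fin.val_injective h5
        rw [h6, h7] at ha
        exact Part.dom_iff_mem.mpr ⟨a, Code.evaln_sound ha⟩
      · rw [decide_eq_false hx, cond_false] at ha
        simp at ha
  · intro h
    obtain ⟨a, ha⟩ := Part.dom_iff_mem.mp h
    obtain ⟨k, hk⟩ := Code.evaln_complete.1 ha
    refine ⟨Nat.pair (encode (c, w)) k, a, ?_⟩
    unfold s3_f
    rw [Nat.unpair_pair]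
    dsimp only
    rw [encodek, Option.elim_some]
    rw [decide_eq_true rfl, cond_true]
    exact hk

end Pool.Agent.H646R2.NT
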