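import Pool.Agent.H646R2.NT.Acc

/-!
Task UP: the index set `closedIx s` is `Π⁰₃`.
-/

set_option autoImplicit false

namespace Pool.Agent.H646R2.NT

open Encodable Nat.Partrec Pool.Agent.Helper446.RE

/-! ### Boolean tests -/

/-- `fuel` steps of the program `e` on `n` -/
def up_ev (e n fuel : ℕ) : Option ℕ := Code.evaln fuel (Denumerable.ofNat Code e) n

/-- Boolean version of `WF` -/
def up_WFB (M : Mach) : Bool :=
  decide (1 ≤ M.1) && M.2.all fun i => decide (i.2.1.length = M.1) && decide (i.2.2.2.length = M.1)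

theorem up_WFB_iff {M : Mach} : up_WFB M = true ↔ WF M := by
  unfold up_WFB WF
  simp [List.all_eq_true]

/-- a violation of the time bound -/
def up_bad {s : ℕ} (A : Mach × ℕ) (v : ℕ) (x : W s × ℕ × ℕ) : Bool :=
  accB A.1 x.1 x.2.1 && !accB A.1 x.1 (PP A.2 v)

/-- `B` recognises the complement of `A` -/
def up_good {s : ℕ} (A B : Mach × ℕ) (v : ℕ) (x : W s × ℕ × ℕ) : Bool :=
  (xor (accB B.1 x.1 (PP B.2 v)) (accB A.1 x.1 (PP A.2 v))) &&
    (!accB B.1 x.1 x.2.1 || accB B.1 x.1 (PP B.2 v))

/-- the matrix of the `Π⁰₃` definition -/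
def up_P {s : ℕ} (e : ℕ) (a : ℕ × (Mach × ℕ)) (b : ℕ × (Bool × ((W s × ℕ × ℕ) × (Mach × ℕ))))
    (c : W s × ℕ × ℕ) : Bool :=
  (up_ev e a.1 b.1).isSome && (!up_WFB a.2.1 || bif b.2.1 then
    (up_ev e b.2.2.1.1.length b.2.2.1.2.2).elim false fun v => up_bad a.2 v b.2.2.1
    else up_WFB b.2.2.2.1 &&
      (up_ev e c.1.length c.2.2).elim true fun v => up_good a.2 b.2.2.2 v c)

/-! ### Computability -/

section comp

variable {α : Type*} [Primcodable α]

theorem c_up_ev {f g k : α → ℕ} (hf : Computable f) (hg : Computable g) (hk : Computable k) :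
    Computable fun x => up_ev (f x) (g x) (k x) := by
  have h1 : Computable fun x => Denumerable.ofNat Code (f x) :=
    (Computable.ofNat Code).comp hf
  exact (Code.primrec_evaln.to_comp).comp ((hk.pair h1).pair hg)

theorem c_up_WFB {f : α → Mach} (hf : Computable f) : Computable fun x => up_WFB (f x) := by
  unfold up_WFB
  refine cand (q_le (cconst 1) (cfst hf)) ?_
  refine q_all (l := fun x => (f x).2) (f := fun x (i : Instr) =>
    decide (i.2.1.length = (f x).1) && decide (i.2.2.2.length = (f x).1)) (csnd hf) ?_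
  have h1 : Computable fun p : α × Instr => (f p.1).1 := cfst (hf.comp Computable.fst)
  have h2 : Computable fun p : α × Instr => p.2.2.1.length := by fun_prop
  have h3 : Computable fun p : α × Instr => p.2.2.2.2.length := by fun_prop
  exact cand (q_eq h2 h1) (q_eq h3 h1)

theorem c_up_bad {s : ℕ} {f : α → Mach × ℕ} {g : α → ℕ} {k : α → W s × ℕ × ℕ}
    (hf : Computable f) (hg : Computable g) (hk : Computable k) :
    Computable fun x => up_bad (f x) (g x) (k x) := by
  unfold up_bad
  exact cand (c_accB (cfst hf) (cfst hk) (cfst (csnd hk)))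
    (cnot (c_accB (cfst hf) (cfst hk) (c_PP (csnd hf) hg)))

theorem c_up_good {s : ℕ} {f f' : α → Mach × ℕ} {g : α → ℕ} {k : α → W s × ℕ × ℕ}
    (hf : Computable f) (hf' : Computable f') (hg : Computable g) (hk : Computable k) :
    Computable fun x => up_good (f x) (f' x) (g x) (k x) := by
  unfold up_good
  have h1 := c_accB (cfst hf) (cfst hk) (c_PP (csnd hf) hg)
  have h2 := c_accB (cfst hf') (cfst hk) (c_PP (csnd hf') hg)
  have h3 := c_accB (cfst hf') (cfst hk) (cfst (csnd hk))
  exact cand (q_xor h2 h1) (cor (cnot h3) h2)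

theorem c_up_P {s : ℕ} {e : α → ℕ} {a : α → ℕ × (Mach × ℕ)}
    {b : α → ℕ × (Bool × ((W s × ℕ × ℕ) × (Mach × ℕ)))} {c : α → W s × ℕ × ℕ}
    (he : Computable e) (ha : Computable a) (hb : Computable b) (hc : Computable c) :
    Computable fun x => up_P (e x) (a x) (b x) (c x) := by
  unfold up_P
  refine cand (cisSome (c_up_ev he (cfst ha) (cfst hb))) (cor (cnot (c_up_WFB (cfst (csnd ha))))
    (ccond (cfst (csnd hb)) ?_ (cand (c_up_WFB (cfst (csnd (csnd (csnd hb))))) ?_)))
  · have h1 : Computable fun x => (b x).2.2.1 := cfst (csnd (csnd hb))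
    refine q_elim (g := fun _ => false) (h := fun x v => up_bad (a x).2 v (b x).2.2.1)
      (c_up_ev he (clength (cfst h1)) (csnd (csnd h1))) (cconst false) ?_
    exact c_up_bad ((csnd ha).comp Computable.fst) Computable.snd (h1.comp Computable.fst)
  · refine q_elim (g := fun _ => true) (h := fun x v => up_good (a x).2 (b x).2.2.2 v (c x))
      (c_up_ev he (clength (cfst hc)) (csnd (csnd hc))) (cconst true) ?_
    exact c_up_good ((csnd ha).comp Computable.fst) ((csnd (csnd (csnd hb))).comp Computable.fst)
      Computable.snd (hc.comp Computable.fst)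

end comp

/-! ### Programs and the values of `up_ev` -/

theorem up_ev_sound {e n fuel v : ℕ} {t : ℕ → ℕ} (ht : Computes e t)
    (h : up_ev e n fuel = some v) : v = t n := by
  have h1 : v ∈ (Denumerable.ofNat Code e).eval n := Code.evaln_sound h
  exact Part.mem_unique h1 (ht n)

theorem up_ev_complete {e n : ℕ} {t : ℕ → ℕ} (ht : Computes e t) :
    ∃ fuel, up_ev e n fuel = some (t n) := Code.evaln_complete.1 (ht n)

/-- description of closure under complementation -/
def up_star (s : ℕ) (t : ℕ → ℕ) : Prop :=
  ∀ A : Mach × ℕ, WF A.1 →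
    (∃ (w : W s) (m : ℕ), accB A.1 w m = true ∧ accB A.1 w (PP A.2 (t w.length)) = false) ∨
    ∃ B : Mach × ℕ, WF B.1 ∧ ∀ (w : W s) (m : ℕ),
      (accB B.1 w (PP B.2 (t w.length)) = !accB A.1 w (PP A.2 (t w.length))) ∧
      (accB B.1 w m = true → accB B.1 w (PP B.2 (t w.length)) = true)

theorem up_star_iff (s : ℕ) (t : ℕ → ℕ) : coNTIME s t = NTIME s t ↔ up_star s t := by
  constructor
  · intro h A hA
    by_cases hv : ∃ (w : W s) (m : ℕ), accB A.1 w m = true ∧
        accB A.1 w (PP A.2 (t w.length)) = false
    · exact Or.inl hv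
    · right
      push Not at hv
      set L : Set (W s) := {w | ∃ n, Acc A.1 w n} with hL
      have hL1 : L ∈ NTIME s t := by
        refine ⟨A.1, PQ A.2, hA, fun w => Iff.rfl, ?_⟩
        rintro w ⟨n, hn⟩
        rw [PQ_eval]
        have := hv w n (accB_iff.2 hn)
        exact accB_iff.1 (by simpa using this)
      rw [← h] at hL1
      obtain ⟨M', p', hM', h1, h2⟩ := hL1
      obtain ⟨c', hc'⟩ := exists_PP p'
      have h3 : ∀ w : W s, accB M' w (PP c' (t w.length)) = true ↔ w ∉ L := by
        intro w
        rw [accB_iff]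
        constructor
        · intro h4
          exact (h1 w).2 ⟨_, h4⟩
        · intro h4
          exact acc_mono (hc' _) (h2 w h4)
      have h5 : ∀ w : W s, accB A.1 w (PP A.2 (t w.length)) = true ↔ w ∈ L := by
        intro w
        constructor
        · intro h6
          exact ⟨_, accB_iff.1 h6⟩
        · rintro ⟨n, hn⟩
          have := hv w n (accB_iff.2 hn)
          simpa using this
      refine ⟨(M', c'), hM', fun w m => ⟨?_, ?_⟩⟩
      · rw [Bool.eq_iff_iff, h3, Bool.not_eq_true', ← Bool.not_eq_true, h5]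
      · intro h6
        rw [h3]
        exact (h1 w).2 ⟨m, accB_iff.1 h6⟩
  · intro h
    have hsub : ∀ L : Set (W s), L ∈ NTIME s t → Lᶜ ∈ NTIME s t := by
      rintro L ⟨M, p, hM, h1, h2⟩
      obtain ⟨c, hc⟩ := exists_PP p
      have h5 : ∀ w : W s, accB M w (PP c (t w.length)) = true ↔ w ∈ L := by
        intro w
        constructor
        · intro h6
          exact (h1 w).2 ⟨_, accB_iff.1 h6⟩
        · intro h6
          exact accB_iff.2 (acc_mono (hc _) (h2 w h6))
      rcases h (M, c) hM with ⟨w, m, h3, h4⟩ | ⟨B, hB, h3⟩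
      · have h6 := (h5 w).2 ((h1 w).2 ⟨m, accB_iff.1 h3⟩)
        simp only at h4
        rw [h4] at h6
        exact absurd h6 (by simp)
      · have h6 : ∀ w : W s, w ∈ Lᶜ ↔ accB B.1 w (PP B.2 (t w.length)) = true := by
          intro w
          rw [(h3 w 0).1, Set.mem_compl_iff, ← h5, Bool.not_eq_true', ← Bool.not_eq_true]
        refine ⟨B.1, PQ B.2, hB, fun w => ?_, fun w hw => ?_⟩
        · rw [h6]
          constructor
          · intro h7
            exact ⟨_, accB_iff.1 h7⟩
          · rintro ⟨n, hn⟩
            exact (h3 w n).2 (accB_iff.2 hn)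
        · rw [PQ_eval]
          exact accB_iff.1 ((h6 w).1 hw)
    ext L
    constructor
    · intro hL
      have := hsub _ hL
      rwa [compl_compl] at this
    · intro hL
      exact hsub _ hL

theorem up_main (s e : ℕ) : e ∈ closedIx s ↔
    ∀ a, ∃ b, ∀ c : W s × ℕ × ℕ, up_P e a b c = true := by
  constructor
  · rintro ⟨t, ht, hcl⟩ a
    rw [up_star_iff] at hcl
    obtain ⟨f1, hf1⟩ := up_ev_complete (n := a.1) ht
    by_cases hW : WF a.2.1
    · rcases hcl a.2 hW with ⟨w, m, h1, h2⟩ | ⟨B, hB, h1⟩
      · obtain ⟨f2, hf2⟩ := up_ev_complete (n := w.length) ht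
        refine ⟨(f1, (true, ((w, m, f2), a.2))), fun c => ?_⟩
        unfold up_P up_bad
        simp [hf1, hf2, h1, h2]
      · refine ⟨(f1, (false, (([], 0, 0), B))), fun c => ?_⟩
        unfold up_P
        have h3 : up_WFB B.1 = true := up_WFB_iff.2 hB
        simp only [hf1, h3, Option.isSome_some, Bool.true_and, cond_false, Bool.or_eq_true]
        right
        cases hc : up_ev e c.1.length c.2.2 with
        | none => rfl
        | some v =>
          have hv := up_ev_sound ht hc
          subst hv
          simp only [Option.elim_some]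
          unfold up_good
          have h4 := h1 c.1 c.2.1
          rw [Bool.and_eq_true, Bool.or_eq_true]
          refine ⟨?_, ?_⟩
          · rw [h4.1]
            simp
          · by_cases h5 : accB B.1 c.1 c.2.1 = true
            · right; exact h4.2 h5
            · left; simpa using h5
    · refine ⟨(f1, (true, (([], 0, 0), a.2))), fun c => ?_⟩
      unfold up_P
      have h3 : up_WFB a.2.1 = false := by
        rw [← Bool.not_eq_true, up_WFB_iff]
        exact hW
      simp [hf1, h3]
  · intro h
    have htot : ∀ n, ∃ v, v ∈ (Denumerable.ofNat Code e).eval n := by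
      intro n
      obtain ⟨b, hb⟩ := h (n, ((0, []), 0))
      have h1 := hb ([], 0, 0)
      unfold up_P at h1
      rw [Bool.and_eq_true] at h1
      obtain ⟨v, hv⟩ := Option.isSome_iff_exists.1 h1.1
      exact ⟨v, Code.evaln_sound hv⟩
    choose t ht using htot
    refine ⟨t, ht, (up_star_iff s t).2 fun A hA => ?_⟩
    obtain ⟨b, hb⟩ := h (0, A)
    have h3 : up_WFB A.1 = true := up_WFB_iff.2 hA
    cases hb2 : b.2.1 with
    | true =>
      left
      have h1 := hb ([], 0, 0)
      unfold up_P at h1
      simp only [h3, hb2, Bool.not_true, Bool.false_or, cond_true, Bool.and_eq_true] at h1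
      have h2 := h1.2
      cases hc : up_ev e b.2.2.1.1.length b.2.2.1.2.2 with
      | none => rw [hc] at h2; exact absurd h2 (by simp)
      | some v =>
        rw [hc] at h2
        have hv := up_ev_sound ht hc
        subst hv
        unfold up_bad at h2
        simp only [Option.elim_some, Bool.and_eq_true, Bool.not_eq_true'] at h2
        exact ⟨_, _, h2.1, h2.2⟩
    | false =>
      right
      refine ⟨b.2.2.2, ?_, fun w m => ?_⟩
      · have h1 := hb ([], 0, 0)
        unfold up_P at h1
        simp only [h3, hb2, Bool.not_true, Bool.false_or, cond_false, Bool.and_eq_true] at h1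
        exact up_WFB_iff.1 h1.2.1
      · obtain ⟨f2, hf2⟩ := up_ev_complete (n := w.length) ht
        have h1 := hb (w, m, f2)
        unfold up_P at h1
        simp only [h3, hb2, Bool.not_true, Bool.false_or, cond_false, Bool.and_eq_true, hf2,
          Option.elim_some] at h1
        have h2 := h1.2.2
        unfold up_good at h2
        rw [Bool.and_eq_true, Bool.or_eq_true] at h2
        refine ⟨?_, ?_⟩
        · have h4 := h2.1
          simp only at h4
          revert h4
          cases accB b.2.2.2.1 w (PP b.2.2.2.2 (t w.length)) <;>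
            cases accB A.1 w (PP A.2 (t w.length)) <;> simp
        · intro h5
          rcases h2.2 with h6 | h6
          · simp only at h6
            rw [h5] at h6
            exact absurd h6 (by simp)
          · exact h6

/-- decoding with a default value -/
def up_dc (α : Type) [Primcodable α] (d : α) (n : ℕ) : α := (decode (α := α) n).getD d

theorem up_dc_encode (α : Type) [Primcodable α] (d a : α) : up_dc α d (encode a) = a := by
  unfold up_dc
  rw [encodek]
  rfl

theorem c_up_dc {β : Type*} [Primcodable β] (α : Type) [Primcodable α] (d : α) {f : β → ℕ}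
    (hf : Computable f) : Computable fun x => up_dc α d (f x) :=
  q_getD (cdecode hf) (cconst d)

theorem closedIx_pi3 (s : ℕ) : IsPi3 (closedIx s) := by
  refine ⟨fun e a b c => up_P e (up_dc (ℕ × (Mach × ℕ)) (0, ((0, []), 0)) a)
    (up_dc (ℕ × (Bool × ((W s × ℕ × ℕ) × (Mach × ℕ)))) (0, (true, (([], 0, 0), ((0, []), 0)))) b)
    (up_dc (W s × ℕ × ℕ) ([], 0, 0) c), ?_, fun e => ?_⟩
  · have h1 : Computable fun y : ℕ × ℕ × ℕ × ℕ => y.1 := by fun_prop
    have h2 : Computable fun y : ℕ × ℕ × ℕ × ℕ => y.2.1 := by fun_prop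
    have h3 : Computable fun y : ℕ × ℕ × ℕ × ℕ => y.2.2.1 := by fun_prop
    have h4 : Computable fun y : ℕ × ℕ × ℕ × ℕ => y.2.2.2 := by fun_prop
    exact c_up_P h1 (c_up_dc _ _ h2) (c_up_dc _ _ h3) (c_up_dc _ _ h4)
  · rw [up_main]
    constructor
    · intro h a
      obtain ⟨b, hb⟩ := h (up_dc (ℕ × (Mach × ℕ)) (0, ((0, []), 0)) a)
      refine ⟨encode b, fun c => ?_⟩
      beta_reduce
      rw [up_dc_encode]
      exact hb _
    · intro h a
      obtain ⟨b, hb⟩ := h (encode a)
      refine ⟨up_dc _ (0, (true, (([], 0, 0), ((0, []), 0)))) b, fun c => ?_⟩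
      have := hb (encode c)
      beta_reduce at this
      rwa [up_dc_encode, up_dc_encode] at this

end Pool.Agent.H646R2.NT
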