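import Pool.Agent.H646R2.NT.Ver
import Pool.Agent.H646R2.NT.S3
import Pool.Agent.H646R2.NT.HH
import Pool.Agent.H646R2.NT.UP

/-!
The index set of the time bounds `t` for which `NTIME(Pol t)` is closed under complementation is
`Π⁰₃`-complete.
-/

set_option autoImplicit false

namespace Pool.Agent.H646R2.NT

open Encodable Nat.Partrec

theorem exists_sys (s : ℕ) (h : ℕ → ℕ) (hc : Computable h) :
    ∃ (hh : ℕ → ℕ → ℕ) (mc : ℕ → ℕ → Mach), (Computable fun x : ℕ × ℕ => hh x.1 x.2) ∧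
      (∀ n, h n ≤ hh 0 n) ∧ Sys s hh mc := by
  obtain ⟨hh, mc, h1, h2, h3, h4, h5, h6, h7⟩ :=
    exists_hh_of (exists_compile s) (DD s) (DD_comp s) h hc
  exact ⟨hh, mc, h1, h2, ⟨h3, h4, h5, h6, h7⟩⟩

theorem exists_index {T : ℕ → ℕ → ℕ} (hT : Computable fun x : ℕ × ℕ => T x.1 x.2) :
    ∃ f : ℕ → ℕ, Computable f ∧ ∀ x, Computes (f x) (T x) := by
  have h1 : Computable fun k : ℕ => T k.unpair.1 k.unpair.2 :=
    hT.comp (g := fun k : ℕ => k.unpair) Computable.unpair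
  have h2 : Nat.Partrec (fun k : ℕ => Part.some (T k.unpair.1 k.unpair.2)) := by
    have h3 : Partrec (fun k : ℕ => Part.some (T k.unpair.1 k.unpair.2)) := h1
    exact Partrec.nat_iff.1 h3
  obtain ⟨c, hc⟩ := Code.exists_code.1 h2
  refine ⟨fun x => encode (Code.curry c x), ?_, ?_⟩
  · have h3 : Computable₂ Code.curry := Code.primrec₂_curry.to_comp
    exact Computable.encode.comp (h3.comp (Computable.const c) Computable.id)
  · intro x n
    rw [Denumerable.ofNat_encode, Code.eval_curry, hc]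
    simp

theorem Computes.unique {e : ℕ} {t t' : ℕ → ℕ} (h : Computes e t) (h' : Computes e t') :
    t = t' := funext fun n => Part.mem_unique (h n) (h' n)

theorem not_closed {s : ℕ} {t : ℕ → ℕ} (h : ∃ L ∈ DTIME s t, Lᶜ ∉ NTIME s t) :
    coNTIME s t ≠ NTIME s t := by
  obtain ⟨L, ⟨M, p, h1, -, h3⟩, h4⟩ := h
  intro he
  have h5 : L ∈ NTIME s t := ⟨M, p, h1, h3⟩
  rw [← he] at h5
  exact h4 h5

theorem final (s : ℕ) :
    IsPi3 (closedIx s) ∧
      ∀ h : ℕ → ℕ, Computable h → ∀ A : Set ℕ, IsPi3 A →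
        ∃ f : ℕ → ℕ, Computable f ∧ (∀ x, x ∈ A ↔ f x ∈ closedIx s) ∧
          ∀ x, ∃ t : ℕ → ℕ, Computes (f x) t ∧ StrictMono t ∧ (∀ n, h n ≤ t n) ∧
            (x ∈ A → coNTIME s t = NTIME s t ∧ NTIME s t = DTIME s t) ∧
              (x ∉ A → ∃ L ∈ DTIME s t, Lᶜ ∉ NTIME s t) := by
  refine ⟨closedIx_pi3 s, fun h hc A hA => ?_⟩
  obtain ⟨P, hP, hPA⟩ := hA
  obtain ⟨hh, mc, h1, h2, S⟩ := exists_sys s h hc
  obtain ⟨f, hf, hfT⟩ := exists_index (TT_comp (s := s) h1 hP)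
  have key : ∀ x, (x ∈ A → coNTIME s (TT s hh P x) = NTIME s (TT s hh P x) ∧
      NTIME s (TT s hh P x) = DTIME s (TT s hh P x)) ∧
      (x ∉ A → ∃ L ∈ DTIME s (TT s hh P x), Lᶜ ∉ NTIME s (TT s hh P x)) := fun x =>
    ⟨fun hx => closed_case S ((hPA x).1 hx), fun hx =>
      open_case S fun h => hx ((hPA x).2 h)⟩
  refine ⟨f, hf, fun x => ⟨fun hx => ⟨_, hfT x, ((key x).1 hx).1⟩, ?_⟩,
    fun x => ⟨TT s hh P x, hfT x, TT_strictMono S,
      fun n => (h2 n).trans (le_TT S n), key x⟩⟩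
  rintro ⟨t, ht, hcl⟩
  by_contra hx
  rw [ht.unique (hfT x)] at hcl
  exact not_closed ((key x).2 hx) hcl

end Pool.Agent.H646R2.NT
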