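import Pool.Agent.H646R2.NT.Constr

/-!
Verification of the construction.
-/

set_option autoImplicit false

namespace Pool.Agent.H646R2.NT

open Encodable

theorem findIdx_range (p : ℕ → Bool) (m : ℕ) : (List.range m).findIdx p ≤ m ∧
    ((List.range m).findIdx p < m → p ((List.range m).findIdx p) = true) ∧
      ∀ i < (List.range m).findIdx p, p i = false := by
  refine ⟨?_, ?_, ?_⟩
  · have := List.findIdx_le_length (p := p) (xs := List.range m)
    simpa using this
  · intro h
    have h1 : (List.range m).findIdx p < (List.range m).length := by simpa using h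
    have h2 := List.findIdx_getElem (p := p) (xs := List.range m) (w := h1)
    simpa using h2
  · intro i hi
    have h1 : i < (List.range m).length :=
      lt_of_lt_of_le hi (List.findIdx_le_length (p := p) (xs := List.range m))
    have h2 := List.not_of_lt_findIdx (p := p) (xs := List.range m) (i := i) hi
    simpa using h2

/-- If almost all elements are accepted in time `t`, a polynomial takes care of the rest. -/
theorem recog_of_ev {s : ℕ} {t : ℕ → ℕ} {M : Mach} {L : Set (W s)}
    (h1 : ∀ w, w ∈ L ↔ ∃ n, Acc M w n) {N : ℕ}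
    (h2 : ∀ w ∈ L, N ≤ w.length → Acc M w (t w.length)) : ∃ p, Recog t M p L := by
  classical
  have h3 : ∀ w : W s, ∃ m, w ∈ L → Acc M w m := by
    intro w
    by_cases hw : w ∈ L
    · obtain ⟨n, hn⟩ := (h1 w).1 hw
      exact ⟨n, fun _ => hn⟩
    · exact ⟨0, fun h => absurd h hw⟩
  choose f hf using h3
  let l : List (W s) := (List.range N).flatMap (words s)
  have hl : ∀ w : W s, w.length < N → w ∈ l := by
    intro w hw
    simp only [l, List.mem_flatMap, List.mem_range, mem_words]
    exact ⟨w.length, hw, rfl⟩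
  let C : ℕ := (l.map f).sum
  refine ⟨Polynomial.X + Polynomial.C C, h1, fun w hw => ?_⟩
  have he : (Polynomial.X + Polynomial.C C : Polynomial ℕ).eval (t w.length) =
      t w.length + C := by simp
  rw [he]
  by_cases hN : N ≤ w.length
  · exact acc_mono (by omega) (h2 w hw hN)
  · refine acc_mono ?_ (hf w hw)
    have h4 : f w ∈ l.map f := List.mem_map.2 ⟨w, hl w (by omega), rfl⟩
    have h5 : f w ≤ C := List.single_le_sum (fun _ _ => Nat.zero_le _) _ h4
    omega

/-- The properties of the hierarchy of bounds. -/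
structure Sys (s : ℕ) (hh : ℕ → ℕ → ℕ) (mc : ℕ → ℕ → Mach) : Prop where
  step : ∀ j n, hh j n ≤ hh (j + 1) n
  jump : ∀ n, hh (2 * n + 2) n < hh 0 (n + 1)
  wf : ∀ j r, WF (mc j r) ∧ Det (mc j r)
  acc : ∀ j r (w : W s), (∃ n, Acc (mc j r) w n) ↔ DD s (hh j w.length) j r w = true
  bd : ∀ j r (w : W s), r ≤ w.length → DD s (hh j w.length) j r w = true →
    Acc (mc j r) w (hh (j + 1) w.length)

section

variable {s : ℕ} {hh : ℕ → ℕ → ℕ} {mc : ℕ → ℕ → Mach} {P : ℕ → ℕ → ℕ → ℕ → Bool} {x : ℕ}

theorem Sys.mono (S : Sys s hh mc) {i j n : ℕ} (h : i ≤ j) : hh i n ≤ hh j n :=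
  monotone_nat_of_le_succ (f := fun j => hh j n) (fun j => S.step j n) h

theorem ix_le (n : ℕ) : ix s hh P x n ≤ 2 * n + 2 := (findIdx_range _ _).1

theorem ix_att {n : ℕ} (h : ix s hh P x n < 2 * n + 2) :
    att s hh P x n (hist s hh P x n) (ix s hh P x n) = true := (findIdx_range _ _).2.1 h

theorem ix_least {n i : ℕ} (h : i < ix s hh P x n) :
    att s hh P x n (hist s hh P x n) i = false := (findIdx_range _ _).2.2 i h

theorem hh_le_TT (S : Sys s hh mc) (n : ℕ) : hh (ix s hh P x n) n ≤ TT s hh P x n := by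
  unfold TT
  generalize (decide (ix s hh P x n % 2 = 1) &&
    DD s (hh (ix s hh P x n) n) (ix s hh P x n) 0 (List.replicate n 0)) = b
  cases b
  · exact le_rfl
  · exact S.mono (ix_le n)

theorem TT_le (S : Sys s hh mc) (n : ℕ) : TT s hh P x n ≤ hh (2 * n + 2) n := by
  unfold TT
  generalize (decide (ix s hh P x n % 2 = 1) &&
    DD s (hh (ix s hh P x n) n) (ix s hh P x n) 0 (List.replicate n 0)) = b
  cases b
  · exact S.mono (ix_le n)
  · exact le_rfl

theorem TT_strictMono (S : Sys s hh mc) : StrictMono (TT s hh P x) := by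
  refine strictMono_nat_of_lt_succ fun n => ?_
  calc TT s hh P x n ≤ hh (2 * n + 2) n := TT_le S n
    _ < hh 0 (n + 1) := S.jump n
    _ ≤ hh (ix s hh P x (n + 1)) (n + 1) := S.mono (Nat.zero_le _)
    _ ≤ _ := hh_le_TT S _

theorem le_TT (S : Sys s hh mc) (n : ℕ) : hh 0 n ≤ TT s hh P x n :=
  (S.mono (Nat.zero_le _)).trans (hh_le_TT S _)

/-- Requirement `i` acts at `n`. -/
def acts (s : ℕ) (hh : ℕ → ℕ → ℕ) (P : ℕ → ℕ → ℕ → ℕ → Bool) (x i n : ℕ) : Prop :=
  ix s hh P x n = i ∧ i < 2 * n + 2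

/-- number of acts -/
abbrev ct (s : ℕ) (hh : ℕ → ℕ → ℕ) (P : ℕ → ℕ → ℕ → ℕ → Bool) (x i n : ℕ) : ℕ :=
  (hist s hh P x n).count i

theorem ct_acts {i n : ℕ} (h : acts s hh P x i n) :
    ct s hh P x i (n + 1) = ct s hh P x i n + 1 := by
  obtain ⟨h1, h2⟩ := h
  have h3 : idxF s hh P x n (hist s hh P x n) = i := h1
  unfold ct
  rw [hist, h3, decide_eq_true h2, cond_true, List.count_cons_self]

theorem ct_not {i n : ℕ} (h : ¬ acts s hh P x i n) :
    ct s hh P x i (n + 1) = ct s hh P x i n := by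
  unfold ct
  rw [hist]
  by_cases h2 : idxF s hh P x n (hist s hh P x n) < 2 * n + 2
  · rw [decide_eq_true h2, cond_true, List.count_cons_of_ne]
    intro h3
    exact h ⟨h3, h3 ▸ h2⟩
  · rw [decide_eq_false h2, cond_false]

theorem ct_le_succ (i n : ℕ) : ct s hh P x i n ≤ ct s hh P x i (n + 1) := by
  by_cases h : acts s hh P x i n
  · rw [ct_acts h]; omega
  · rw [ct_not h]

theorem ct_mono {i m n : ℕ} (h : m ≤ n) : ct s hh P x i m ≤ ct s hh P x i n :=
  monotone_nat_of_le_succ (f := fun n => ct s hh P x i n) (fun n => ct_le_succ i n) h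

theorem ct_zero (i : ℕ) : ct s hh P x i 0 = 0 := by simp [ct, hist]

theorem fin_of_bdd {i B : ℕ} (h : ∀ n, acts s hh P x i n → ct s hh P x i n < B) :
    ∃ N, ∀ n ≥ N, ¬ acts s hh P x i n := by
  by_contra hcon
  push Not at hcon
  have h1 : ∀ k, ∃ n, k ≤ ct s hh P x i n := by
    intro k
    induction k with
    | zero => exact ⟨0, Nat.zero_le _⟩
    | succ k ih =>
      obtain ⟨n, hn⟩ := ih
      obtain ⟨m, hm, ha⟩ := hcon n
      refine ⟨m + 1, ?_⟩
      rw [ct_acts ha]
      have := ct_mono (s := s) (hh := hh) (P := P) (x := x) (i := i) hm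
      omega
  obtain ⟨n, hn⟩ := h1 B
  obtain ⟨m, hm, ha⟩ := hcon n
  have h2 := ct_mono (s := s) (hh := hh) (P := P) (x := x) (i := i) hm
  have h3 := h m ha
  omega

theorem ev_gt {I : ℕ} (h : ∀ i < I, ∃ N, ∀ n ≥ N, ¬ acts s hh P x i n) :
    ∃ N, I ≤ N ∧ ∀ n ≥ N, I ≤ ix s hh P x n := by
  induction I with
  | zero => exact ⟨0, le_rfl, fun n _ => Nat.zero_le _⟩
  | succ I ih =>
    obtain ⟨N, hN, h1⟩ := ih fun i hi => h i (by omega)
    obtain ⟨N', h2⟩ := h I (by omega)
    refine ⟨max (max N N') (I + 1), by omega, fun n hn => ?_⟩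
    have h3 := h1 n (by omega)
    have h4 := h2 n (by omega)
    by_contra h5
    exact h4 ⟨by omega, by omega⟩

theorem even_fin (e : ℕ) : ∃ N, ∀ n ≥ N, ¬ acts s hh P x (2 * e) n := by
  refine fin_of_bdd (B := 1) fun n hn => ?_
  have h1 := hn.1
  have h2 := ix_att (s := s) (hh := hh) (P := P) (x := x) (n := n) (by rw [h1]; exact hn.2)
  rw [h1] at h2
  unfold att at h2
  have h3 : (2 * e) % 2 = 0 := by omega
  rw [decide_eq_true h3, cond_true, Bool.and_eq_true, decide_eq_true_eq] at h2
  exact Nat.lt_one_iff.2 h2.1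

theorem alw_iff {a k n : ℕ} : alw P x a k n = true ↔ ∀ b ≤ k, ∃ c ≤ n, P x a b c = false := by
  unfold alw
  simp only [List.all_eq_true, List.any_eq_true, List.mem_range, Nat.lt_succ_iff,
    Bool.not_eq_true']

theorem att_odd {a n : ℕ} (h : acts s hh P x (2 * a + 1) n) :
    n.unpair.1 = ct s hh P x (2 * a + 1) n ∧ alw P x a (ct s hh P x (2 * a + 1) n) n = true := by
  have h1 := h.1
  have h2 := ix_att (s := s) (hh := hh) (P := P) (x := x) (n := n) (by rw [h1]; exact h.2)
  rw [h1] at h2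
  unfold att at h2
  have h3 : ¬ (2 * a + 1) % 2 = 0 := by omega
  have h4 : (2 * a + 1) / 2 = a := by omega
  rw [decide_eq_false h3, cond_false, Bool.and_eq_true, decide_eq_true_eq, h4] at h2
  exact h2

theorem odd_fin {a : ℕ} (h : ∃ b, ∀ c, P x a b c = true) :
    ∃ N, ∀ n ≥ N, ¬ acts s hh P x (2 * a + 1) n := by
  obtain ⟨B, hB⟩ := h
  refine fin_of_bdd (B := B) fun n hn => ?_
  have h1 := alw_iff.1 (att_odd hn).2
  by_contra h2
  obtain ⟨c, -, hc⟩ := h1 B (by omega)
  rw [hB c] at hc
  exact absurd hc (by simp)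

theorem TT_even {n e : ℕ} (h : ix s hh P x n = 2 * e) : TT s hh P x n = hh (2 * e) n := by
  unfold TT
  have h3 : ¬ (2 * e) % 2 = 1 := by omega
  rw [h, decide_eq_false h3, Bool.false_and, cond_false]

theorem TT_odd {n a : ℕ} (h : ix s hh P x n = 2 * a + 1) : TT s hh P x n =
    bif DD s (hh (2 * a + 1) n) (2 * a + 1) 0 (List.replicate n 0) then hh (2 * n + 2) n
    else hh (2 * a + 1) n := by
  unfold TT
  have h3 : (2 * a + 1) % 2 = 1 := by omega
  rw [h, decide_eq_true h3, Bool.true_and]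

/-! ### The case of closure -/

theorem closed_main' (S : Sys s hh mc) (hx : ∀ a, ∃ b, ∀ c, P x a b c = true) {L : Set (W s)}
    (hL : L ∈ NTIME s (TT s hh P x)) (b : Bool) (L' : Set (W s))
    (hL' : ∀ w, w ∈ L' ↔ (b = true ↔ w ∉ L)) : L' ∈ DTIME s (TT s hh P x) := by
  classical
  obtain ⟨M, p, hM, hR1, hR2⟩ := hL
  obtain ⟨c, hc⟩ := exists_PP p
  obtain ⟨e, he⟩ := pr_surj (M, c)
  have valid : ∀ w ∈ L, accB M w (PP c (TT s hh P x w.length)) = true := fun w hw =>
    accB_iff.2 (acc_mono (hc _) (hR2 w hw))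
  have e1 : (pr e).1 = M := by rw [he]
  have e2 : (pr e).2 = c := by rw [he]
  -- never killed
  have nk : ∀ n, ¬ acts s hh P x (2 * e) n := by
    intro n hn
    have h1 := hn.1
    have h2 := ix_att (s := s) (hh := hh) (P := P) (x := x) (n := n) (by rw [h1]; exact hn.2)
    rw [h1] at h2
    unfold att at h2
    have h3 : (2 * e) % 2 = 0 := by omega
    have h4 : (2 * e) / 2 = e := by omega
    rw [decide_eq_true h3, cond_true, Bool.and_eq_true, h4] at h2
    obtain ⟨-, h2⟩ := h2
    unfold cnd at h2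
    rw [List.any_eq_true] at h2
    obtain ⟨w, hw, h5⟩ := h2
    rw [mem_words] at hw
    rw [e1, e2, Bool.and_eq_true, Bool.not_eq_true', Bool.eq_false_iff] at h5
    have h6 : w ∈ L := (hR1 w).2 ⟨_, accB_iff.1 h5.1⟩
    have h7 := valid w h6
    rw [hw, TT_even h1] at h7
    exact h5.2 h7
  have ct0 : ∀ n, ct s hh P x (2 * e) n = 0 := by
    intro n
    induction n with
    | zero => exact ct_zero _
    | succ n ih => rw [ct_not (nk n), ih]
  obtain ⟨N, hN1, hN2⟩ := ev_gt (s := s) (hh := hh) (P := P) (x := x) (I := 2 * e + 1) (by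
    intro i _
    rcases Nat.even_or_odd' i with ⟨k, rfl | rfl⟩
    · exact even_fin k
    · exact odd_fin (hx k))
  have key : ∀ w : W s, N ≤ w.length →
      (w ∈ L ↔ accB M w (PP c (hh (2 * e) w.length)) = true) := by
    intro w hw
    constructor
    · intro h
      have h1 := valid w h
      have h2 : accB M w (PP c (hh (2 * w.length + 2) w.length)) = true :=
        accB_mono (PP_mono (TT_le S _)) h1
      have h3 := ix_least (s := s) (hh := hh) (P := P) (x := x) (n := w.length) (i := 2 * e)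
        (by have := hN2 _ hw; omega)
      unfold att at h3
      have h4 : (2 * e) % 2 = 0 := by omega
      have h5 : (2 * e) / 2 = e := by omega
      have h6 : (hist s hh P x w.length).count (2 * e) = 0 := ct0 _
      rw [decide_eq_true h4, cond_true, h5, decide_eq_true h6, Bool.true_and] at h3
      unfold cnd at h3
      rw [List.any_eq_false] at h3
      have h7 := h3 w (mem_words.2 rfl)
      rw [e1, e2, h2, Bool.true_and, Bool.not_eq_true, Bool.not_eq_false'] at h7
      exact h7
    · intro h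
      exact (hR1 w).2 ⟨_, accB_iff.1 h⟩
  -- the patched machine
  let tb : List (W s) := ((List.range N).flatMap (words s)).filter fun w => decide (w ∈ L')
  have htb : ∀ w : W s, w.length < N → (w ∈ tb ↔ w ∈ L') := by
    intro w hw
    simp only [tb, List.mem_filter, List.mem_flatMap, List.mem_range, mem_words,
      decide_eq_true_eq]
    exact ⟨fun h => h.2, fun h => ⟨⟨w.length, hw, rfl⟩, h⟩⟩
  let r : ℕ := encode ((b, N, tb) : Patch s)
  have hD : ∀ w : W s, DD s (hh (2 * e) w.length) (2 * e) r w = true ↔ w ∈ L' := by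
    intro w
    unfold DD
    have h4 : (2 * e) % 2 = 0 := by omega
    have h5 : (2 * e) / 2 = e := by omega
    rw [decide_eq_true h4, cond_true, h5]
    have h6 : pdec s r = (b, N, tb) := pdec_encode _
    rw [h6]
    dsimp only
    by_cases hw : w.length < N
    · rw [decide_eq_true hw, cond_true, decide_eq_true_eq]
      exact htb w hw
    · rw [decide_eq_false hw, cond_false, e1, e2, hL']
      have h7 := key w (by omega)
      rcases hb : accB M w (PP c (hh (2 * e) w.length)) with _ | _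
      · have h8 : w ∉ L := fun h => by rw [h7.1 h] at hb; cases hb
        cases b <;> simp [h8]
      · have h8 : w ∈ L := h7.2 hb
        cases b <;> simp [h8]
  have hA : ∀ w, w ∈ L' ↔ ∃ n, Acc (mc (2 * e) r) w n := fun w => by
    rw [S.acc, hD]
  obtain ⟨p', hp'⟩ := recog_of_ev (t := TT s hh P x) (N := max N r) hA (by
    intro w hw hlen
    have h1 := S.bd (2 * e) r w (by omega) ((hD w).2 hw)
    refine acc_mono ?_ h1
    exact (S.mono (hN2 _ (by omega))).trans (hh_le_TT S _))
  exact ⟨_, p', (S.wf _ _).1, (S.wf _ _).2, hp'⟩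

theorem closed_case (S : Sys s hh mc) (hx : ∀ a, ∃ b, ∀ c, P x a b c = true) :
    coNTIME s (TT s hh P x) = NTIME s (TT s hh P x) ∧
      NTIME s (TT s hh P x) = DTIME s (TT s hh P x) := by
  have h0 : ∀ L, L ∈ DTIME s (TT s hh P x) → L ∈ NTIME s (TT s hh P x) := by
    rintro L ⟨M, p, h1, -, h3⟩
    exact ⟨M, p, h1, h3⟩
  have h1 : ∀ L, L ∈ NTIME s (TT s hh P x) → Lᶜ ∈ NTIME s (TT s hh P x) := fun L hL =>
    h0 _ (closed_main' S hx hL true Lᶜ fun w => by simp)
  refine ⟨?_, ?_⟩
  · ext L
    constructor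
    · intro hL
      have := h1 _ hL
      rwa [compl_compl] at this
    · exact h1 L
  · ext L
    exact ⟨fun hL => closed_main' S hx hL false L fun w => by simp, h0 L⟩

/-! ### The other case -/

theorem row_unbounded {a : ℕ} (hx : ∀ b, ∃ c, P x a b c = false) {N : ℕ}
    (hN : ∀ n ≥ N, 2 * a + 1 ≤ ix s hh P x n) (k : ℕ) :
    ∃ n, k ≤ ct s hh P x (2 * a + 1) n := by
  induction k with
  | zero => exact ⟨0, Nat.zero_le _⟩
  | succ k ih =>
    obtain ⟨n, hn⟩ := ih
    by_contra hcon
    push Not at hcon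
    choose f hf using hx
    let m := (N + n + a) + ∑ b ∈ Finset.range (k + 1), f b
    let n' := Nat.pair k m
    have hm : m ≤ n' := Nat.right_le_pair _ _
    have h1 : alw P x a k n' = true := by
      refine alw_iff.2 fun b hb => ⟨f b, ?_, hf b⟩
      have h2 : f b ≤ ∑ b ∈ Finset.range (k + 1), f b :=
        Finset.single_le_sum (f := f) (fun _ _ => Nat.zero_le _) (Finset.mem_range.2 (by omega))
      omega
    have h2 : ct s hh P x (2 * a + 1) n' = k := by
      have h3 := ct_mono (s := s) (hh := hh) (P := P) (x := x) (i := 2 * a + 1)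
        (m := n) (n := n') (by omega)
      have h4 := hcon n'
      omega
    have h3 : att s hh P x n' (hist s hh P x n') (2 * a + 1) = true := by
      unfold att
      have h3 : ¬ (2 * a + 1) % 2 = 0 := by omega
      have h4 : (2 * a + 1) / 2 = a := by omega
      have h5 : (hist s hh P x n').count (2 * a + 1) = k := h2
      have h6 : n'.unpair.1 = k := by simp [n']
      rw [decide_eq_false h3, cond_false, h4, h5, h6, h1]
      simp
    have h4 : ix s hh P x n' = 2 * a + 1 := by
      have h5 := hN n' (by omega)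
      by_contra h6
      have h7 := ix_least (s := s) (hh := hh) (P := P) (x := x) (n := n') (i := 2 * a + 1)
        (by omega)
      rw [h3] at h7
      exact absurd h7 (by simp)
    have h5 := ct_acts (s := s) (hh := hh) (P := P) (x := x) (i := 2 * a + 1) (n := n')
      ⟨h4, by omega⟩
    have h6 := hcon (n' + 1)
    omega

theorem row_hits {a : ℕ} (hx : ∀ b, ∃ c, P x a b c = false) {N : ℕ}
    (hN : ∀ n ≥ N, 2 * a + 1 ≤ ix s hh P x n) (k : ℕ) :
    ∃ n, acts s hh P x (2 * a + 1) n ∧ n.unpair.1 = k := by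
  classical
  have h1 := row_unbounded hx hN (k + 1)
  have h2 := Nat.find_spec h1
  have h3 : Nat.find h1 ≠ 0 := by
    intro h
    rw [h, ct_zero] at h2
    omega
  obtain ⟨m, hm⟩ := Nat.exists_eq_succ_of_ne_zero h3
  have h4 : ¬ (k + 1 ≤ ct s hh P x (2 * a + 1) m) := Nat.find_min h1 (by omega)
  rw [hm] at h2
  have h5 : acts s hh P x (2 * a + 1) m := by
    by_contra h6
    rw [Nat.succ_eq_add_one, ct_not h6] at h2
    exact h4 h2
  refine ⟨m, h5, ?_⟩
  rw [(att_odd h5).1]
  rw [Nat.succ_eq_add_one, ct_acts h5] at h2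
  omega

theorem open_case (S : Sys s hh mc) (hx : ¬ ∀ a, ∃ b, ∀ c, P x a b c = true) :
    ∃ L ∈ DTIME s (TT s hh P x), Lᶜ ∉ NTIME s (TT s hh P x) := by
  classical
  push Not at hx
  have ha := Nat.find_spec hx
  have hb : ∀ a' < Nat.find hx, ∃ b, ∀ c, P x a' b c = true := by
    intro a' h
    have h1 := Nat.find_min hx h
    push Not at h1
    obtain ⟨b, hb⟩ := h1
    exact ⟨b, fun c => by simpa using hb c⟩
  generalize Nat.find hx = a at ha hb
  have ha' : ∀ b, ∃ c, P x a b c = false := fun b => by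
    obtain ⟨c, hc⟩ := ha b
    exact ⟨c, by simpa using hc⟩
  obtain ⟨N, hN1, hN2⟩ := ev_gt (s := s) (hh := hh) (P := P) (x := x) (I := 2 * a + 1) (by
    intro i hi
    rcases Nat.even_or_odd' i with ⟨k, rfl | rfl⟩
    · exact even_fin k
    · exact odd_fin (hb k (by omega)))
  let L : Set (W s) := {w | DD s (hh (2 * a + 1) w.length) (2 * a + 1) 0 w = true}
  have hA : ∀ w, w ∈ L ↔ ∃ n, Acc (mc (2 * a + 1) 0) w n := fun w => (S.acc _ _ w).symm
  have hrep : ∀ w ∈ L, w = List.replicate w.length 0 := by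
    intro w hw
    have h1 : DD s (hh (2 * a + 1) w.length) (2 * a + 1) 0 w = true := hw
    unfold DD at h1
    have h3 : ¬ (2 * a + 1) % 2 = 0 := by omega
    rw [decide_eq_false h3, cond_false, Bool.and_eq_true, decide_eq_true_eq] at h1
    exact h1.1
  refine ⟨L, ?_, ?_⟩
  · obtain ⟨p', hp'⟩ := recog_of_ev (t := TT s hh P x) (N := N) hA (by
      intro w hw hlen
      have h1 := S.bd (2 * a + 1) 0 w (by omega) hw
      refine acc_mono ?_ h1
      have h2 := hN2 _ hlen
      rcases Nat.lt_or_ge (2 * a + 1) (ix s hh P x w.length) with h3 | h3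
      · exact (S.mono (i := 2 * a + 1 + 1) (by omega)).trans (hh_le_TT S _)
      · have h4 : ix s hh P x w.length = 2 * a + 1 := by omega
        have h5 : DD s (hh (2 * a + 1) w.length) (2 * a + 1) 0
            (List.replicate w.length 0) = true := by
          rw [← hrep w hw]; exact hw
        rw [TT_odd h4, h5, cond_true]
        exact S.mono (by omega))
    exact ⟨_, p', (S.wf _ _).1, (S.wf _ _).2, hp'⟩
  · rintro ⟨M, p, -, hR1, hR2⟩
    obtain ⟨c, hc⟩ := exists_PP p
    obtain ⟨e, he⟩ := pr_surj (M, c)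
    obtain ⟨n, hn1, hn2⟩ := row_hits ha' hN2 e
    let w : W s := List.replicate n 0
    have hwl : w.length = n := by simp [w]
    have hDD : DD s (hh (2 * a + 1) n) (2 * a + 1) 0 w =
        accB M w (PP c (hh (2 * a + 1) n)) := by
      unfold DD
      have h3 : ¬ (2 * a + 1) % 2 = 0 := by omega
      have h4 : w = List.replicate w.length 0 := by rw [hwl]
      rw [decide_eq_false h3, cond_false, hwl, hn2, he, decide_eq_true (by rfl), Bool.true_and]
    have hmem : w ∈ L ↔ accB M w (PP c (hh (2 * a + 1) n)) = true := by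
      show DD s (hh (2 * a + 1) w.length) (2 * a + 1) 0 w = true ↔ _
      rw [hwl, hDD]
    rcases hb : accB M w (PP c (hh (2 * a + 1) n)) with _ | _
    · have h1 : w ∈ Lᶜ := fun h => by rw [hmem.1 h] at hb; cases hb
      have h2 := hR2 w h1
      have h3 : TT s hh P x n = hh (2 * a + 1) n := by
        rw [TT_odd hn1.1]
        have h4 : DD s (hh (2 * a + 1) n) (2 * a + 1) 0 (List.replicate n 0) = false := by
          rw [← hb, ← hDD]
        rw [h4, cond_false]
      rw [hwl, h3] at h2
      have h4 := accB_iff.2 (acc_mono (hc _) h2)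
      rw [hb] at h4
      cases h4
    · have h1 : w ∈ L := hmem.2 hb
      exact (hR1 w).2 ⟨_, accB_iff.1 hb⟩ h1

end

end Pool.Agent.H646R2.NT
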